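import Mathlib
import Pool.Agent.J4H26.KP.Q2
import Pool.Agent.J4H26.PC.B2
import Pool.Agent.J4H26.KT.W3
import Pool.Agent.J4H39.Z3

set_option autoImplicit false

/-! Project KP, part J15: means over tuples of words; windows and words. -/

namespace Pool.Agent.J4H55.KP

open Finset Filter Real MeasureTheory
open Pool.Agent.J4H39 (T od ex pb ns rn stP stK lb Gf Wd Wd_eq id1 pb_id1 id1_nonneg id1_pos id1_neg
  ex_mono ex_add ex_mul ex_const ex_congr th0 th0_lt th0_gt th0_pos ns_nonneg ns_le_one exK)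
open Pool.Agent.J4H26.PC (Iv Ph Ph_bd Ph_meas ii_bdd int_ex cov)
open Pool.Agent.J4H26.KT (IsE isE_ex fW Adm cw iw)
open Pool.Agent.J4H26.KP

theorem isE_exK (s : ℕ) : ∀ K : ℕ, IsE (exK s K) := by
  intro K
  induction K with
  | zero => exact ⟨fun f g => rfl, fun c f => rfl, fun f g h => h _, rfl⟩
  | succ K ih =>
    refine ⟨?_, ?_, ?_, ?_⟩
    · intro f g
      show ex s (fun y => exK s K (fun v => f (Fin.cons y v) + g (Fin.cons y v))) =
        ex s (fun y => exK s K (fun v => f (Fin.cons y v))) + ex s (fun y => exK s K (fun v => g (Fin.cons y v)))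
      rw [← ex_add]
      exact ex_congr (fun y => ih.add _ _)
    · intro c f
      show ex s (fun y => exK s K (fun v => c * f (Fin.cons y v))) = c * ex s (fun y => exK s K (fun v => f (Fin.cons y v)))
      rw [← ex_mul]
      exact ex_congr (fun y => ih.smul _ _)
    · intro f g h
      exact ex_mono (fun y => ih.mono _ _ (fun v => h _))
    · show ex s (fun y => exK s K (fun v => 1)) = 1
      have : ∀ y : ℤ, exK s K (fun v => (1 : ℝ)) = 1 := fun y => ih.one
      rw [ex_congr this, ex_const]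

theorem exK_prod (s : ℕ) : ∀ (K : ℕ) (φ : Fin K → ℤ → ℝ), exK s K (fun y => ∏ i, φ i (y i)) = ∏ i, ex s (φ i) := by
  intro K
  induction K with
  | zero => intro φ; simp [exK]
  | succ K ih =>
    intro φ
    have e : ∀ y : ℤ, exK s K (fun v => ∏ i, φ i ((Fin.cons y v : Fin (K + 1) → ℤ) i)) =
        (∏ i : Fin K, ex s (φ i.succ)) * φ 0 y := by
      intro y
      rw [← ih (fun i => φ i.succ), mul_comm, ← (isE_exK s K).smul]
      congr 1
      funext v
      rw [Fin.prod_univ_succ]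
      simp only [Fin.cons_zero, Fin.cons_succ]
    show ex s (fun y => exK s K (fun v => ∏ i, φ i ((Fin.cons y v : Fin (K + 1) → ℤ) i))) = _
    rw [ex_congr e, ex_mul, Fin.prod_univ_succ, mul_comm]

theorem exK_marg (s : ℕ) : ∀ (K : ℕ) (i : Fin K) (φ : ℤ → ℝ), exK s K (fun y => φ (y i)) = ex s φ := by
  intro K
  induction K with
  | zero => intro i; exact i.elim0
  | succ K ih =>
    intro i φ
    show ex s (fun y => exK s K (fun v => φ ((Fin.cons y v : Fin (K + 1) → ℤ) i))) = _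
    rcases Fin.eq_zero_or_eq_succ i with rfl | ⟨j, rfl⟩
    · simp only [Fin.cons_zero]
      exact ex_congr (fun y => (isE_exK s K).const (φ y))
    · simp only [Fin.cons_succ]
      have e : ∀ y : ℤ, exK s K (fun v => φ (v j)) = ex s φ := fun y => ih j φ
      rw [ex_congr e, ex_const]

theorem ex_comm (s t : ℕ) (f : ℤ → ℤ → ℝ) : ex s (fun y => ex t (fun u => f y u)) = ex t (fun u => ex s (fun y => f y u)) := by
  unfold ex
  simp only [Finset.sum_div]
  rw [Finset.sum_comm]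
  apply sum_congr rfl
  intro x _
  apply sum_congr rfl
  intro y _
  rw [div_right_comm]

theorem exK_marg2 (s : ℕ) : ∀ (K : ℕ) (i j : Fin K) (φ : ℤ → ℤ → ℝ), i ≠ j →
    exK s K (fun y => φ (y i) (y j)) = ex s (fun y => ex s (fun y' => φ y y')) := by
  intro K
  induction K with
  | zero => intro i; exact i.elim0
  | succ K ih =>
    intro i j φ hij
    show ex s (fun y => exK s K (fun v => φ ((Fin.cons y v : Fin (K + 1) → ℤ) i) ((Fin.cons y v : Fin (K + 1) → ℤ) j))) = _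
    rcases Fin.eq_zero_or_eq_succ i with rfl | ⟨i', rfl⟩
    · rcases Fin.eq_zero_or_eq_succ j with rfl | ⟨j', rfl⟩
      · exact absurd rfl hij
      · simp only [Fin.cons_zero, Fin.cons_succ]
        exact ex_congr (fun y => exK_marg s K j' (φ y))
    · rcases Fin.eq_zero_or_eq_succ j with rfl | ⟨j', rfl⟩
      · simp only [Fin.cons_zero, Fin.cons_succ]
        rw [ex_congr (fun y => exK_marg s K i' (fun u => φ u y))]
        exact ex_comm s s (fun y u => φ u y)
      · simp only [Fin.cons_succ]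
        have e : ∀ y : ℤ, exK s K (fun v => φ (v i') (v j')) = ex s (fun y => ex s (fun y' => φ y y')) :=
          fun y => ih i' j' φ (fun h => hij (congrArg Fin.succ h))
        rw [ex_congr e, ex_const]

theorem meas_exK (s : ℕ) : ∀ (K : ℕ) (G : (Fin K → ℤ) → ℝ → ℝ), (∀ y, Measurable (G y)) →
    Measurable (fun x => exK s K (fun y => G y x)) := by
  intro K
  induction K with
  | zero => intro G h; exact h _
  | succ K ih =>
    intro G h
    show Measurable (fun x => ex s (fun y => exK s K (fun v => G (Fin.cons y v) x)))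
    unfold ex
    apply Measurable.div_const
    exact Finset.measurable_sum _ (fun i _ => ih (fun v => G (Fin.cons ((i : ℕ) : ℤ) v)) (fun v => h _))

theorem exK_abs {s K : ℕ} {F : (Fin K → ℤ) → ℝ} {M : ℝ} (h : ∀ y, |F y| ≤ M) : |exK s K F| ≤ M := by
  have := (isE_exK s K).abs_le (f := F) (g := fun _ => M) h
  rwa [(isE_exK s K).const] at this

theorem int_exK {s : ℕ} {p q : ℝ} : ∀ (K : ℕ) (G : (Fin K → ℤ) → ℝ → ℝ) (M : ℝ), (∀ y, Measurable (G y)) → (∀ y x, |G y x| ≤ M) →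
    (∫ x in p..q, exK s K (fun y => G y x)) = exK s K (fun y => ∫ x in p..q, G y x) := by
  intro K
  induction K with
  | zero => intro G M _ _; rfl
  | succ K ih =>
    intro G M h1 h2
    show (∫ x in p..q, ex s (fun y => exK s K (fun v => G (Fin.cons y v) x))) =
      ex s (fun y => exK s K (fun v => ∫ x in p..q, G (Fin.cons y v) x))
    rw [int_ex (F := fun y x => exK s K (fun v => G (Fin.cons y v) x)) (fun y => ii_bdd
      (meas_exK s K (fun v => G (Fin.cons y v)) (fun v => h1 _)) (fun x => exK_abs (M := M) (fun v => h2 _ x)) p q)]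
    exact ex_congr (fun y => ih (fun v => G (Fin.cons y v)) M (fun v => h1 _) (fun v x => h2 _ x))

/-- comparison with a variable error, outside rare words -/
theorem exK_cmp {s K : ℕ} {F G R : (Fin K → ℤ) → ℝ} {Bad : ℤ → Prop} {M : ℝ} (hM : 0 ≤ M) (hR : ∀ y, 0 ≤ R y)
    (h1 : ∀ y, (∀ i, ¬ Bad (y i)) → |F y - G y| ≤ R y) (h2 : ∀ y, |F y - G y| ≤ M) :
    |exK s K F - exK s K G| ≤ exK s K R + K * (M * pb s Bad) := by
  have key : ∀ y : Fin K → ℤ, |F y - G y| ≤ R y + ∑ i, M * id1 (Bad (y i)) := by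
    intro y
    have h0 : ∀ i ∈ (univ : Finset (Fin K)), 0 ≤ M * id1 (Bad (y i)) := fun i _ => mul_nonneg hM (id1_nonneg _)
    by_cases hb : ∀ i, ¬ Bad (y i)
    · have := h1 y hb
      have := sum_nonneg h0
      linarith
    · push Not at hb
      obtain ⟨i, hi⟩ := hb
      have h3 := single_le_sum h0 (mem_univ i)
      rw [id1_pos hi, mul_one] at h3
      have := h2 y
      have := hR y
      linarith
  have h3 := (isE_exK s K).abs_le (f := fun y => F y - G y) (g := fun y => R y + ∑ i, M * id1 (Bad (y i))) key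
  rw [(isE_exK s K).sub, (isE_exK s K).add, (isE_exK s K).sum] at h3
  refine h3.trans (le_of_eq ?_)
  congr 1
  rw [sum_congr rfl (fun i _ => (isE_exK s K).smul M (fun y => id1 (Bad (y i))))]
  rw [sum_congr rfl (fun i _ => by rw [exK_marg s K i (fun u => id1 (Bad u)), ← pb_id1] :
    ∀ i ∈ univ, M * exK s K (fun y => id1 (Bad (y i))) = M * pb s Bad)]
  rw [sum_const, card_univ, Fintype.card_fin, nsmul_eq_mul]

theorem prod_bd {K : ℕ} {a : Fin K → ℝ} (ha : ∀ i, |a i| ≤ 2) : |∏ i, a i| ≤ 2 ^ K := by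
  rw [Finset.abs_prod]
  refine (Finset.prod_le_prod (fun i _ => abs_nonneg _) (fun i _ => ha i)).trans (le_of_eq ?_)
  rw [prod_const, card_univ, Fintype.card_fin]

theorem prod_near {K : ℕ} {a b : Fin K → ℝ} (ha : ∀ i, |a i| ≤ 2) (hb : ∀ i, |b i| ≤ 2) :
    |∏ i, a i - ∏ i, b i| ≤ 2 ^ K * ∑ i, |a i - b i| := by
  classical
  have gen : ∀ S : Finset (Fin K), |∏ i ∈ S, a i| ≤ 2 ^ #S ∧ |∏ i ∈ S, a i - ∏ i ∈ S, b i| ≤ 2 ^ #S * ∑ i ∈ S, |a i - b i| := by
    intro S
    induction S using Finset.induction_on with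
    | empty => simp
    | insert x S hx ih =>
      rw [prod_insert hx, prod_insert hx, sum_insert hx, card_insert_of_notMem hx, pow_succ]
      obtain ⟨i1, i2⟩ := ih
      have h1 := ha x
      have h2 := hb x
      have p0 : (0 : ℝ) ≤ 2 ^ #S := by positivity
      have s0 : 0 ≤ ∑ i ∈ S, |a i - b i| := sum_nonneg (fun i _ => abs_nonneg _)
      constructor
      · rw [abs_mul]
        have := mul_le_mul h1 i1 (abs_nonneg _) (by norm_num)
        linarith
      · have e : a x * ∏ i ∈ S, a i - b x * ∏ i ∈ S, b i =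
            (a x - b x) * ∏ i ∈ S, a i + b x * (∏ i ∈ S, a i - ∏ i ∈ S, b i) := by ring
        rw [e]
        refine (abs_add_le _ _).trans ?_
        rw [abs_mul, abs_mul]
        have e1 : |a x - b x| * |∏ i ∈ S, a i| ≤ |a x - b x| * 2 ^ #S := mul_le_mul_of_nonneg_left i1 (abs_nonneg _)
        have e2 : |b x| * |∏ i ∈ S, a i - ∏ i ∈ S, b i| ≤ 2 * (2 ^ #S * ∑ i ∈ S, |a i - b i|) :=
          mul_le_mul h2 i2 (abs_nonneg _) (by norm_num)
        have e3 : 0 ≤ |a x - b x| * 2 ^ #S := by positivity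
        nlinarith
  have := (gen univ).2
  rwa [card_univ, Fintype.card_fin] at this

/-- the mean over the positions, for given words -/
noncomputable def HH {K : ℕ} (F : Fin K → ℤ → ℝ) (κ a N : ℝ) (t : ℕ) (y : Fin K → ℤ) : ℝ :=
  (∫ x in (κ * N)..(κ * N + N), ∏ i, Ph (F i) (3 ^ od t (y i) * x / 2 ^ t) (3 ^ od t (y i) * a / 2 ^ t)) / N

theorem meas_prod {K : ℕ} (F : Fin K → ℤ → ℝ) (a : ℝ) (t : ℕ) (y : Fin K → ℤ) :
    Measurable (fun x => ∏ i, Ph (F i) (3 ^ od t (y i) * x / 2 ^ t) (3 ^ od t (y i) * a / 2 ^ t)) := by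
  apply Finset.measurable_prod
  intro i _
  have h1 := Ph_meas (F i) (3 ^ od t (y i) * a / 2 ^ t)
  have h2 : Measurable (fun x : ℝ => 3 ^ od t (y i) * x / 2 ^ t) := (measurable_id.const_mul _).div_const _
  exact h1.comp h2

theorem int_le {F : ℝ → ℝ} {C N : ℝ} (hN : 0 < N) (κ : ℝ) (h : ∀ x, |F x| ≤ C) : |(∫ x in (κ * N)..(κ * N + N), F x) / N| ≤ C := by
  have h5 := intervalIntegral.norm_integral_le_of_norm_le_const (a := κ * N) (b := κ * N + N) (C := C)
    (f := F) (fun x _ => by rw [Real.norm_eq_abs]; exact h x)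
  rw [Real.norm_eq_abs, show κ * N + N - κ * N = N by ring, abs_of_pos hN] at h5
  rw [abs_div, abs_of_pos hN, div_le_iff₀ hN]
  exact h5

theorem HH_bd {K : ℕ} {F : Fin K → ℤ → ℝ} (hF : ∀ i, Iv (F i)) (κ a : ℝ) {N : ℝ} (hN : 0 < N) (t : ℕ) (y : Fin K → ℤ) :
    |HH F κ a N t y| ≤ 2 ^ K :=
  int_le hN κ (fun x => prod_bd (fun i => Ph_bd (hF i) _ _))

theorem HH_eq {K : ℕ} (F : Fin K → ℤ → ℝ) (κ a : ℝ) {N : ℝ} (hN : 0 < N) (t : ℕ) (y : Fin K → ℤ) (o₀ : ℕ)
    (ho : ∀ i, o₀ ≤ od t (y i)) :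
    HH F κ a N t y = GGK F κ (3 ^ o₀ * a / 2 ^ t) (3 ^ o₀ * N / 2 ^ t) (fun i => od t (y i) - o₀) := by
  unfold HH GGK
  have hc : (0 : ℝ) < 3 ^ o₀ / 2 ^ t := by positivity
  have h1 := cov (H := fun x => ∏ i, Ph (F i) (3 ^ (od t (y i) - o₀) * x) (3 ^ (od t (y i) - o₀) * (3 ^ o₀ * a / 2 ^ t)))
    (κ := κ) hc hN
  rw [show (3 : ℝ) ^ o₀ / 2 ^ t * N = 3 ^ o₀ * N / 2 ^ t by ring] at h1
  rw [← h1]
  congr 1
  apply intervalIntegral.integral_congr
  intro x _
  simp only
  apply prod_congr rfl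
  intro i _
  have e : (3 : ℝ) ^ od t (y i) = 3 ^ (od t (y i) - o₀) * 3 ^ o₀ := by
    rw [← pow_add, Nat.sub_add_cancel (ho i)]
  rw [e]
  congr 1 <;> ring

theorem win_step {K : ℕ} {F : Fin K → ℤ → ℝ} (hF : ∀ i, Iv (F i)) {κ a N ε : ℝ} (hN : 0 < N) {t : ℕ}
    (h : ∀ i x, |Ph (F i) x a - ex t (fun y => Ph (F i) (3 ^ od t y * x / 2 ^ t) (3 ^ od t y * a / 2 ^ t))| ≤ ε) :
    |(∫ x in (κ * N)..(κ * N + N), ∏ i, Ph (F i) x a) / N - exK t K (HH F κ a N t)| ≤ 2 ^ K * (K * ε) := by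
  have e1 : exK t K (HH F κ a N t) = (∫ x in (κ * N)..(κ * N + N),
      ∏ i, ex t (fun y => Ph (F i) (3 ^ od t y * x / 2 ^ t) (3 ^ od t y * a / 2 ^ t))) / N := by
    have e2 : ∀ x : ℝ, ∏ i, ex t (fun y => Ph (F i) (3 ^ od t y * x / 2 ^ t) (3 ^ od t y * a / 2 ^ t)) =
        exK t K (fun y => ∏ i, Ph (F i) (3 ^ od t (y i) * x / 2 ^ t) (3 ^ od t (y i) * a / 2 ^ t)) := by
      intro x
      exact (exK_prod t K (fun i y => Ph (F i) (3 ^ od t y * x / 2 ^ t) (3 ^ od t y * a / 2 ^ t))).symm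
    rw [intervalIntegral.integral_congr (fun x _ => e2 x)]
    rw [int_exK K (fun y x => ∏ i, Ph (F i) (3 ^ od t (y i) * x / 2 ^ t) (3 ^ od t (y i) * a / 2 ^ t)) (2 ^ K)
      (fun y => meas_prod F a t y) (fun y x => prod_bd (fun i => Ph_bd (hF i) _ _))]
    rw [div_eq_inv_mul, ← (isE_exK t K).smul]
    congr 1
    funext y
    unfold HH
    rw [div_eq_inv_mul]
  rw [e1, ← sub_div]
  have m1 : Measurable (fun x => ∏ i, Ph (F i) x a) := Finset.measurable_prod _ (fun i _ => Ph_meas (F i) a)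
  have m2 : Measurable (fun x => ∏ i, ex t (fun y => Ph (F i) (3 ^ od t y * x / 2 ^ t) (3 ^ od t y * a / 2 ^ t))) := by
    apply Finset.measurable_prod
    intro i _
    unfold ex
    apply Measurable.div_const
    apply Finset.measurable_sum
    intro j _
    have h1 := Ph_meas (F i) (3 ^ od t ((j : ℕ) : ℤ) * a / 2 ^ t)
    have h2 : Measurable (fun x : ℝ => 3 ^ od t ((j : ℕ) : ℤ) * x / 2 ^ t) := (measurable_id.const_mul _).div_const _
    exact h1.comp h2
  have b2 : ∀ (i : Fin K) (x : ℝ), |ex t (fun y => Ph (F i) (3 ^ od t y * x / 2 ^ t) (3 ^ od t y * a / 2 ^ t))| ≤ 2 :=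
    fun i x => Pool.Agent.J4H26.PC.ex_abs (fun y => Ph_bd (hF i) _ _)
  rw [← intervalIntegral.integral_sub (ii_bdd m1 (C := 2 ^ K) (fun x => prod_bd (fun i => Ph_bd (hF i) _ _)) _ _)
    (ii_bdd m2 (C := 2 ^ K) (fun x => prod_bd (fun i => b2 i x)) _ _)]
  apply int_le hN
  intro x
  refine (prod_near (fun i => Ph_bd (hF i) _ _) (fun i => b2 i x)).trans ?_
  apply mul_le_mul_of_nonneg_left _ (by positivity)
  refine (sum_le_sum (fun i _ => h i x)).trans (le_of_eq ?_)
  rw [sum_const, card_univ, Fintype.card_fin, nsmul_eq_mul]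

end Pool.Agent.J4H55.KP
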