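import Mathlib
import Pool.Agent.J4H55.KP.Ek
import Pool.Agent.J4H55.PC.B7

set_option autoImplicit false

/-! Project KP, part J15: the parameters. -/

namespace Pool.Agent.J4H55.KP

open Finset Filter Real
open Pool.Agent.J4H39 (th0 th0_lt th0_gt th0_pos)
open Pool.Agent.J4H55.PC (pw)

theorem Dran {w t₂ D : ℕ} (hw : 20 ≤ w) (h1 : (w : ℝ) ^ 84 ≤ t₂) (h2 : (t₂ : ℝ) ≤ 10 * (w : ℝ) ^ 85)
    (h3 : (w : ℝ) ^ 46 / 2 ≤ D) (h4 : (D : ℝ) ≤ 2 * (w : ℝ) ^ 46) :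
    (t₂ : ℝ) ^ (13 / 25 : ℝ) ≤ D ∧ (D : ℝ) ≤ (t₂ : ℝ) ^ (14 / 25 : ℝ) := by
  have hw' : (20 : ℝ) ≤ w := by exact_mod_cast hw
  have hw0 : (0 : ℝ) ≤ w := by linarith
  have hw1 : (1 : ℝ) ≤ w := by linarith
  constructor
  · refine le_trans ?_ h3
    have e1 : (t₂ : ℝ) ≤ (w : ℝ) ^ 86 := by
      refine h2.trans ?_
      rw [pow_succ (w : ℝ) 85, mul_comm]
      exact mul_le_mul_of_nonneg_left (by linarith) (by positivity)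
    calc (t₂ : ℝ) ^ (13 / 25 : ℝ) ≤ ((w : ℝ) ^ 86) ^ (13 / 25 : ℝ) := Real.rpow_le_rpow (by positivity) e1 (by norm_num)
      _ = (w : ℝ) ^ (86 * (13 / 25) : ℝ) := by
          rw [← Real.rpow_natCast (w : ℝ) 86, ← Real.rpow_mul hw0]; norm_num
      _ ≤ (w : ℝ) ^ (45 : ℝ) := Real.rpow_le_rpow_of_exponent_le hw1 (by norm_num)
      _ = (w : ℝ) ^ 45 := by
          rw [show (45 : ℝ) = ((45 : ℕ) : ℝ) by norm_num, Real.rpow_natCast]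
      _ ≤ (w : ℝ) ^ 46 / 2 := by
          rw [pow_succ (w : ℝ) 45]
          have : 0 ≤ (w : ℝ) ^ 45 := by positivity
          nlinarith
  · refine h4.trans ?_
    calc 2 * (w : ℝ) ^ 46 ≤ (w : ℝ) ^ 47 := by
          rw [pow_succ (w : ℝ) 46]
          have : 0 ≤ (w : ℝ) ^ 46 := by positivity
          nlinarith
      _ = (w : ℝ) ^ (47 : ℝ) := by
          rw [show (47 : ℝ) = ((47 : ℕ) : ℝ) by norm_num, Real.rpow_natCast]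
      _ ≤ (w : ℝ) ^ (84 * (14 / 25) : ℝ) := Real.rpow_le_rpow_of_exponent_le hw1 (by norm_num)
      _ = ((w : ℝ) ^ 84) ^ (14 / 25 : ℝ) := by
          rw [← Real.rpow_natCast (w : ℝ) 84, ← Real.rpow_mul hw0]; norm_num
      _ ≤ (t₂ : ℝ) ^ (14 / 25 : ℝ) := Real.rpow_le_rpow (by positivity) h1 (by norm_num)

/-- the base -/
theorem base {w t₁ : ℕ} (hw : 20 ≤ w) (ht : w ^ 52 ≤ t₁) :
    2 * ((t₁ / 2 - w ^ 46 : ℕ) : ℝ) - t₁ ≤ -(2 * (w : ℝ) ^ 46) ∧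
      -(2 * (w : ℝ) ^ 46) - 1 ≤ 2 * ((t₁ / 2 - w ^ 46 : ℕ) : ℝ) - t₁ := by
  have h1 : 2 * w ^ 46 ≤ w ^ 52 := by
    calc 2 * w ^ 46 ≤ w ^ 6 * w ^ 46 := Nat.mul_le_mul_right _ (le_trans (by omega) (Nat.le_self_pow (by norm_num) w))
      _ = w ^ 52 := by ring
  obtain ⟨P, hP⟩ : ∃ P, P = w ^ 46 := ⟨_, rfl⟩
  have hPr : (P : ℝ) = (w : ℝ) ^ 46 := by rw [hP]; push_cast; rfl
  rw [← hP] at h1 ⊢
  rw [← hPr]
  have a1 : 2 * (t₁ / 2 - P) + 2 * P ≤ t₁ := by omega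
  have a2 : t₁ ≤ 2 * (t₁ / 2 - P) + 2 * P + 1 := by omega
  have b1 : 2 * ((t₁ / 2 - P : ℕ) : ℝ) + 2 * P ≤ t₁ := by exact_mod_cast a1
  have b2 : (t₁ : ℝ) ≤ 2 * ((t₁ / 2 - P : ℕ) : ℝ) + 2 * P + 1 := by exact_mod_cast a2
  constructor <;> linarith

theorem geo {w t₁ o : ℕ} (hw : 20 ≤ w) (ht : w ^ 52 ≤ t₁) (ho : |2 * (o : ℝ) - t₁| < (w : ℝ) ^ 45) :
    t₁ / 2 - w ^ 46 ≤ o ∧ (w : ℝ) ^ 46 / 2 ≤ ((o - (t₁ / 2 - w ^ 46) : ℕ) : ℝ) ∧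
      ((o - (t₁ / 2 - w ^ 46) : ℕ) : ℝ) ≤ 2 * (w : ℝ) ^ 46 := by
  obtain ⟨b1, b2⟩ := base hw ht
  obtain ⟨o₀, ho₀⟩ : ∃ o₀, o₀ = t₁ / 2 - w ^ 46 := ⟨_, rfl⟩
  rw [← ho₀] at b1 b2 ⊢
  have hw' : (20 : ℝ) ≤ w := by exact_mod_cast hw
  have h3 : 20 * (w : ℝ) ^ 45 ≤ (w : ℝ) ^ 46 := by
    rw [pow_succ (w : ℝ) 45, mul_comm]
    exact mul_le_mul_of_nonneg_left hw' (by positivity)
  have h4 : (1 : ℝ) ≤ (w : ℝ) ^ 45 := one_le_pow₀ (by linarith)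
  rw [abs_lt] at ho
  have h5 : (o₀ : ℝ) ≤ o := by linarith
  have h6 : o₀ ≤ o := by exact_mod_cast h5
  rw [Nat.cast_sub h6]
  refine ⟨h6, ?_, ?_⟩ <;> linarith

theorem nums {θ δ η L S Y : ℝ} {w t₁ : ℕ} (hθ0 : 0 < θ) (hθ1 : θ < 1) (hδ0 : 0 < δ) (hδ3 : δ ≤ (1 - θ) / 4)
    (hη0 : 0 < η) (hη : 16 * η ≤ δ) (hw : 1 ≤ w) (hw2 : 10000 ≤ ((1 - θ) * η) * w) (hL0 : 0 < L)
    (hLw1 : (w : ℝ) ^ 85 ≤ L) (hLw2 : L ≤ 2 * (w : ℝ) ^ 85) (hS : S = th0 * t₁) (hS0 : 0 ≤ S)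
    (hSL : |S - θ * L| ≤ δ * L) (hY : |Y - (L - S)| ≤ 3 * (w : ℝ) ^ 46) (hY2 : Y ≤ L - S) :
    t₁ ≤ ⌊(1 / th0) * L⌋₊ ∧ ∃ t₂ : ℕ, (w : ℝ) ^ 84 ≤ t₂ ∧ (t₂ : ℝ) ≤ 10 * (w : ℝ) ^ 85 ∧ (1 + η) * th0 * t₂ ≤ Y ∧
      Y ≤ (1 + 2 * η) * th0 * t₂ ∧ t₂ ≤ ⌊(1 / th0) * L⌋₊ - t₁ ∧ ⌊(1 / th0) * L⌋₊ - t₁ ≤ t₂ + ⌊δ / 2 * (t₂ : ℝ)⌋₊ ∧
      |th0 * (t₁ + t₂) - L| ≤ δ * L ∧ |th0 * (t₁ + (t₂ + ⌊δ / 2 * (t₂ : ℝ)⌋₊ : ℕ)) - L| ≤ δ * L := by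
  have hth0 := th0_pos
  have hth1 := th0_lt
  have hth2 := th0_gt
  have hc0 : 0 < 1 - θ := by linarith
  have hcη : 0 < (1 - θ) * η := by positivity
  have hw1' : (1 : ℝ) ≤ w := by exact_mod_cast hw
  have p1 := pw 46 85 hw (by norm_num) hcη hw2
  have p2 := pw 84 85 hw (by norm_num) hcη hw2
  have p3 := pw 0 85 hw (by norm_num) hcη hw2
  rw [pow_zero, mul_one] at p3
  have p4 : ((1 - θ) * η) * (w : ℝ) ^ 85 ≤ ((1 - θ) * η) * L := mul_le_mul_of_nonneg_left hLw1 hcη.le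
  have w46 : (0 : ℝ) ≤ (w : ℝ) ^ 46 := by positivity
  have w84 : (0 : ℝ) ≤ (w : ℝ) ^ 84 := by positivity
  obtain ⟨E, hE⟩ : ∃ E, E = ((1 - θ) * η) * L := ⟨_, rfl⟩
  rw [← hE] at p4
  have hη1 : η ≤ 1 / 32 := by linarith
  -- E ≤ (1 - θ) L / 32 and E ≤ δ L / 16
  have q1 : E ≤ (1 - θ) * L / 32 := by
    have := mul_le_mul_of_nonneg_left hη1 (mul_nonneg hc0.le hL0.le)
    rw [hE]; linarith
  have q2 : 16 * E ≤ δ * L := by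
    have h1 : ((1 - θ) * η) * L ≤ η * L := by
      have : (1 - θ) * η ≤ η := by nlinarith
      exact mul_le_mul_of_nonneg_right this hL0.le
    have h2 := mul_le_mul_of_nonneg_right hη hL0.le
    rw [hE]; linarith
  have q3 : δ * L ≤ (1 - θ) / 4 * L := mul_le_mul_of_nonneg_right hδ3 hL0.le
  have e1 : (1 - θ) / 4 * L = (L - θ * L) / 4 := by ring
  have e2 : (1 - θ) * L / 32 = (L - θ * L) / 32 := by ring
  rw [e1] at q3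
  rw [e2] at q1
  rw [abs_le] at hSL hY
  -- the number t₂
  obtain ⟨z, hz⟩ : ∃ z, z = th0 * (1 + 3 / 2 * η) := ⟨_, rfl⟩
  have hz0 : 0 < z := by rw [hz]; positivity
  have hz1 : z ≤ 1 := by rw [hz]; nlinarith
  obtain ⟨t₂, ht₂⟩ : ∃ t₂ : ℕ, t₂ = ⌊Y / z⌋₊ := ⟨_, rfl⟩
  have hY0 : 0 ≤ Y := by linarith
  have a1 : z * t₂ ≤ Y := by
    have h : (t₂ : ℝ) ≤ Y / z := by rw [ht₂]; exact Nat.floor_le (div_nonneg hY0 hz0.le)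
    rw [le_div_iff₀ hz0] at h
    linarith
  have a2 : Y < z * t₂ + z := by
    have h := Nat.lt_floor_add_one (Y / z)
    rw [← ht₂, div_lt_iff₀ hz0] at h
    linarith
  obtain ⟨u, hu⟩ : ∃ u, u = th0 * t₂ := ⟨_, rfl⟩
  have e3 : z * t₂ = u + 3 / 2 * (η * u) := by rw [hz, hu]; ring
  rw [e3] at a1 a2
  have hu0 : 0 ≤ u := by rw [hu]; positivity
  have hP0 : 0 ≤ η * u := by positivity
  have hPu : η * u ≤ u / 32 := by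
    have := mul_le_mul_of_nonneg_right hη1 hu0
    linarith
  have hul : (L - θ * L) / 8 ≤ u := by linarith
  have hPE : E / 8 ≤ η * u := by
    have := mul_le_mul_of_nonneg_left hul hη0.le
    have e4 : η * ((L - θ * L) / 8) = E / 8 := by rw [hE]; ring
    linarith
  have hδu : 16 * (η * u) ≤ δ * u := by
    have := mul_le_mul_of_nonneg_right hη hu0
    linarith
  have huL : u ≤ L := by linarith
  have hδuL : δ * u ≤ δ * L := mul_le_mul_of_nonneg_left huL hδ0.le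
  have ht2u : (t₂ : ℝ) ≤ 5 * u := by
    have := mul_le_mul_of_nonneg_right hth2.le (Nat.cast_nonneg (α := ℝ) t₂)
    rw [hu]; linarith
  have hut2 : u ≤ t₂ := by
    have := mul_le_mul_of_nonneg_right (by linarith : th0 ≤ 1) (Nat.cast_nonneg (α := ℝ) t₂)
    rw [hu]; linarith
  -- T
  obtain ⟨T, hT⟩ : ∃ T : ℕ, T = ⌊(1 / th0) * L⌋₊ := ⟨_, rfl⟩
  have hT1 : th0 * T ≤ L := by
    have h : (T : ℝ) ≤ (1 / th0) * L := by rw [hT]; exact Nat.floor_le (by positivity)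
    have h2 := mul_le_mul_of_nonneg_left h hth0.le
    rwa [← mul_assoc, mul_one_div_cancel hth0.ne', one_mul] at h2
  have hT2 : L < th0 * T + th0 := by
    have h := Nat.lt_floor_add_one ((1 / th0) * L)
    rw [← hT] at h
    have h2 := mul_lt_mul_of_pos_left h hth0
    rw [← mul_assoc, mul_one_div_cancel hth0.ne', one_mul] at h2
    linarith
  rw [← hT]
  have g1 : t₁ ≤ T := by
    have : th0 * (t₁ : ℝ) ≤ th0 * T := by rw [← hS]; linarith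
    exact_mod_cast le_of_mul_le_mul_left this hth0
  have fl1 : (⌊δ / 2 * (t₂ : ℝ)⌋₊ : ℝ) ≤ δ / 2 * (t₂ : ℝ) := Nat.floor_le (by positivity)
  have fl2 : th0 * (⌊δ / 2 * (t₂ : ℝ)⌋₊ : ℝ) ≤ δ / 2 * u := by
    have := mul_le_mul_of_nonneg_left fl1 hth0.le
    rw [hu]; linarith
  have fl0 : 0 ≤ th0 * (⌊δ / 2 * (t₂ : ℝ)⌋₊ : ℝ) := by positivity
  refine ⟨g1, t₂, ?_, ?_, ?_, ?_, ?_, ?_, ?_, ?_⟩
  · linarith
  · linarith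
  · have e4 : (1 + η) * th0 * t₂ = u + η * u := by rw [hu]; ring
    rw [e4]; linarith
  · have e4 : (1 + 2 * η) * th0 * t₂ = u + 2 * (η * u) := by rw [hu]; ring
    rw [e4]; linarith
  · have : th0 * ((t₁ : ℝ) + t₂) ≤ th0 * T := by
      have e4 : th0 * ((t₁ : ℝ) + t₂) = S + u := by rw [hS, hu]; ring
      rw [e4]; linarith
    have h := le_of_mul_le_mul_left this hth0
    have h2 : t₁ + t₂ ≤ T := by exact_mod_cast h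
    omega
  · have h1 : th0 * ((T : ℝ) - t₁ - t₂) ≤ th0 * (δ / 2 * t₂) := by
      have e4 : th0 * ((T : ℝ) - t₁ - t₂) = th0 * T - S - u := by rw [hS, hu]; ring
      have e5 : th0 * (δ / 2 * t₂) = δ / 2 * u := by rw [hu]; ring
      rw [e4, e5]; linarith
    have h2 := le_of_mul_le_mul_left h1 hth0
    rcases le_or_gt (T - t₁) t₂ with h3 | h3
    · omega
    · have h4 : ((T - t₁ - t₂ : ℕ) : ℝ) ≤ δ / 2 * t₂ := by
        rw [Nat.cast_sub h3.le, Nat.cast_sub g1]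
        exact h2
      have h5 := Nat.le_floor h4
      omega
  · have e4 : th0 * ((t₁ : ℝ) + t₂) = S + u := by rw [hS, hu]; ring
    rw [e4, abs_le]
    constructor <;> linarith
  · have e4 : th0 * ((t₁ : ℝ) + ((t₂ + ⌊δ / 2 * (t₂ : ℝ)⌋₊ : ℕ) : ℝ)) = S + u + th0 * (⌊δ / 2 * (t₂ : ℝ)⌋₊ : ℝ) := by
      rw [hS, hu]; push_cast; ring
    rw [e4, abs_le]
    constructor <;> linarith

end Pool.Agent.J4H55.KP
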