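import Mathlib
import Pool.Agent.J4H55.KP.Num
import Pool.Agent.J4H39.M7

set_option autoImplicit false

/-! Project KP, part J15: the moments of the window averages. -/

namespace Pool.Agent.J4H55.KP

open Finset Filter Real MeasureTheory
open Pool.Agent.J4H39 (T od ex pb ns rn stP stK lb Gf Wd Wd_eq id1 pb_id1 id1_nonneg id1_pos id1_neg
  ex_mono ex_add ex_mul ex_const ex_congr th0 th0_lt th0_gt th0_pos ns_nonneg ns_le_one exK tN)
open Pool.Agent.J4H26.PC (Iv Ph Ph_bd S_STM len_eq pb_dev_w)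
open Pool.Agent.J4H26.KT (IsE isE_ex fW Adm cw iw)
open Pool.Agent.J4H26.KP
open Pool.Agent.J4H55.PC (ns_z ns_anti root_bd root_tend pow_two_bd frac_bd steps)

open Classical in
/-- the means, with the value zero at the empty set -/
noncomputable def mx {n : ℕ} (m : Finset (Fin n) → ℝ) (B : Finset (Fin n)) : ℝ := if B.Nonempty then m B else 0

theorem mx_abs {n : ℕ} {m : Finset (Fin n) → ℝ} (h : ∀ B : Finset (Fin n), B.Nonempty → |m B| ≤ 1) (B : Finset (Fin n)) :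
    |mx m B| ≤ 1 := by
  unfold mx
  split_ifs with hB
  · exact h B hB
  · rw [abs_zero]; exact zero_le_one

theorem mR_abs {n : ℕ} {m : Finset (Fin n) → ℝ} (h : ∀ B : Finset (Fin n), |m B| ≤ 1) (p : Fin n → Fin n → Prop) : |mR m p| ≤ 1 := by
  unfold mR
  rw [Finset.abs_prod]
  exact Finset.prod_le_one (fun i _ => abs_nonneg _) (fun i _ => h _)

theorem mR_mx {n : ℕ} (m : Finset (Fin n) → ℝ) (p : Fin n → Fin n → Prop) (hp : ∀ i, p i i) : mR (mx m) p = mR m p := by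
  classical
  unfold mR
  apply prod_congr rfl
  intro B hB
  obtain ⟨i, _, rfl⟩ := mem_image.1 hB
  unfold mx
  rw [if_pos]
  exact ⟨i, mem_filter.2 ⟨mem_univ _, hp i⟩⟩

theorem mP_mx {n : ℕ} (m : Finset (Fin n) → ℝ) (s : Fin n → ℤ × ℤ) : mP (mx m) s = mP m s := mR_mx m _ (fun _ => rfl)

theorem mP_abs {n : ℕ} {m : Finset (Fin n) → ℝ} (h : ∀ B : Finset (Fin n), |m B| ≤ 1) (s : Fin n → ℤ × ℤ) : |mP m s| ≤ 1 :=
  mR_abs h _

theorem mZ_mx {n : ℕ} (m : Finset (Fin n) → ℝ) (z : Fin n → ℤ) : mZ (mx m) z = mZ m z := mR_mx m _ (fun _ => rfl)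

theorem adm_mx {n : ℕ} {m : Finset (Fin n) → ℝ} (h : ∀ B : Finset (Fin n), |m B| ≤ 1) :
    Adm (fun (_ : Fin n → ℝ) (p : Fin n → Fin n → Prop) => mR m p) :=
  ⟨fun _ p => mR_abs h p, fun u v p => by rw [sub_self, abs_zero]; exact norm_nonneg _⟩

theorem Wd_mR {n : ℕ} (m : Finset (Fin n) → ℝ) (q o₀ : ℕ) (D : Fin n → ℕ) :
    Wd q (fun _ p => mR m p) (fun i => o₀ + D i) = ex q (fun y => mP m (rn stK q (fun i => ((D i : ℤ), 0)) y)) := by
  rw [Wd_eq]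
  rfl

theorem tN_tend : Tendsto (fun N : ℕ => tN (1 / th0) N) atTop atTop := by
  unfold tN
  apply tendsto_nat_floor_atTop.comp
  apply Tendsto.const_mul_atTop (by have := th0_pos; positivity)
  exact (Real.tendsto_logb_atTop (by norm_num)).comp tendsto_natCast_atTop_atTop

/-- the pointwise estimate -/
theorem point {n : ℕ} {F : Fin n → ℤ → ℝ} {κ a b N X ε₁ : ℝ} {m : Finset (Fin n) → ℝ} {t₁ t₂ t₃ t' o₀ : ℕ} {y : Fin n → ℤ}
    (hN : 0 < N) (hX : X = 3 ^ o₀ * N / 2 ^ t₁) (hb : b = 3 ^ o₀ * a / 2 ^ t₁) (ho : ∀ i, o₀ ≤ od t₁ (y i))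
    (hg : |GGK F κ b X (fun i => od t₁ (y i) - o₀) - ccK F κ X (fun i => od t₁ (y i) - o₀) (fun _ => 0)| ≤ ε₁)
    (hc : |ccK F κ X (fun i => od t₁ (y i) - o₀) (fun _ => 0) -
      ex t₂ (fun z => mP m (rn stK t₂ (fun i => (((od t₁ (y i) - o₀ : ℕ) : ℤ), 0)) z))| ≤
      ε₁ + 8 * ∑ i, ∑ j, (ns t₂ (((od t₁ (y i) - o₀ : ℕ) : ℤ) - ((od t₁ (y j) - o₀ : ℕ) : ℤ), 0) -
        ns t₃ (((od t₁ (y i) - o₀ : ℕ) : ℤ) - ((od t₁ (y j) - o₀ : ℕ) : ℤ), 0)))
    (hP : S_PAT) (hm : ∀ B : Finset (Fin n), B.Nonempty → |m B| ≤ 1) (h12 : t₂ ≤ t') (h23 : t' ≤ t₃) :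
    |HH F κ a N t₁ y - Wd t' (fun _ p => mR (mx m) p) (fun i => od t₁ (y i))| ≤
      2 * ε₁ + 10 * ∑ i, ∑ j, (ns t₂ ((od t₁ (y i) : ℤ) - od t₁ (y j), 0) - ns t₃ ((od t₁ (y i) : ℤ) - od t₁ (y j), 0)) := by
  obtain ⟨D, hD⟩ : ∃ D : Fin n → ℕ, D = fun i => od t₁ (y i) - o₀ := ⟨_, rfl⟩
  have hDi : ∀ i, od t₁ (y i) - o₀ = D i := by intro i; rw [hD]
  have hDd : ∀ i j, (od t₁ (y i) : ℤ) - od t₁ (y j) = (D i : ℤ) - D j := by
    intro i j
    have h1 := ho i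
    have h2 := ho j
    rw [← hDi i, ← hDi j]
    omega
  have hoD : ∀ i, od t₁ (y i) = o₀ + D i := by
    intro i
    have h1 := ho i
    rw [← hDi i]
    omega
  rw [HH_eq F κ a hN t₁ y o₀ ho, ← hX, ← hb]
  simp only [hDi] at hg hc ⊢
  simp only [hDd]
  have e1 : Wd t' (fun _ p => mR (mx m) p) (fun i => od t₁ (y i)) =
      ex t' (fun z => mP (mx m) (rn stK t' (fun i => ((D i : ℤ), 0)) z)) := by
    rw [← Wd_mR (mx m) t' o₀ D]
    congr 1
    funext i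
    exact hoD i
  rw [e1]
  have hp := hP n t₂ t' h12 (mx m) (mx_abs hm) D
  have e2 : ∀ z : ℤ, mP m (rn stK t₂ (fun i => ((D i : ℤ), 0)) z) = mP (mx m) (rn stK t₂ (fun i => ((D i : ℤ), 0)) z) :=
    fun z => (mP_mx m _).symm
  rw [ex_congr e2] at hc
  have h5 : ∑ i, ∑ j, (ns t₂ ((D i : ℤ) - D j, 0) - ns t' ((D i : ℤ) - D j, 0)) ≤
      ∑ i, ∑ j, (ns t₂ ((D i : ℤ) - D j, 0) - ns t₃ ((D i : ℤ) - D j, 0)) := by
    apply sum_le_sum
    intro i _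
    apply sum_le_sum
    intro j _
    have := ns_anti h23 ((D i : ℤ) - D j, 0)
    linarith
  rw [abs_le] at hg hc hp ⊢
  constructor <;> linarith [hg.1, hg.2, hc.1, hc.2, hp.1, hp.2]

/-- the mean of the error -/
theorem mean_err {n s t₂ t₃ : ℕ} {V₂ V₃ φ e : ℝ} (h2 : V₂ = ex s (fun y => ex s (fun y' => ns t₂ ((od s y' : ℤ) - od s y, 0))))
    (h3 : V₃ = ex s (fun y => ex s (fun y' => ns t₃ ((od s y' : ℤ) - od s y, 0)))) (g2 : |V₂ - φ| ≤ e) (g3 : |V₃ - φ| ≤ e) :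
    exK s n (fun y => ∑ i, ∑ j, (ns t₂ ((od s (y i) : ℤ) - od s (y j), 0) - ns t₃ ((od s (y i) : ℤ) - od s (y j), 0))) ≤
      (n : ℝ) ^ 2 * (2 * e) := by
  have he : 0 ≤ e := (abs_nonneg _).trans g2
  rw [(isE_exK s n).sum]
  have h : ∀ i ∈ (univ : Finset (Fin n)), exK s n (fun y => ∑ j, (ns t₂ ((od s (y i) : ℤ) - od s (y j), 0) -
      ns t₃ ((od s (y i) : ℤ) - od s (y j), 0))) ≤ (n : ℝ) * (2 * e) := by
    intro i _
    rw [(isE_exK s n).sum]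
    have h' : ∀ j ∈ (univ : Finset (Fin n)), exK s n (fun y => ns t₂ ((od s (y i) : ℤ) - od s (y j), 0) -
        ns t₃ ((od s (y i) : ℤ) - od s (y j), 0)) ≤ 2 * e := by
      intro j _
      rcases eq_or_ne i j with rfl | hij
      · have e1 : (fun y : Fin n → ℤ => ns t₂ ((od s (y i) : ℤ) - od s (y i), 0) - ns t₃ ((od s (y i) : ℤ) - od s (y i), 0)) =
            fun _ => 0 := by
          funext y
          rw [sub_self, ns_z, ns_z, sub_self]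
        rw [e1, (isE_exK s n).const]
        positivity
      · rw [(isE_exK s n).sub]
        rw [exK_marg2 s n j i (fun y y' => ns t₂ ((od s y' : ℤ) - od s y, 0)) hij.symm,
          exK_marg2 s n j i (fun y y' => ns t₃ ((od s y' : ℤ) - od s y, 0)) hij.symm, ← h2, ← h3]
        rw [abs_le] at g2 g3
        linarith
    refine (sum_le_sum h').trans (le_of_eq ?_)
    rw [sum_const, card_univ, Fintype.card_fin, nsmul_eq_mul]
  refine (sum_le_sum h).trans (le_of_eq ?_)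
  rw [sum_const, card_univ, Fintype.card_fin, nsmul_eq_mul]
  ring

end Pool.Agent.J4H55.KP
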