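import Mathlib
import Pool.Agent.J4H55.KP.Mom

set_option autoImplicit false

/-! Project KP, part J15: the moments of the window averages, assembly. -/

namespace Pool.Agent.J4H55.KP

open Finset Filter Real MeasureTheory
open Pool.Agent.J4H39 (T od ex pb ns rn stP stK lb Gf Wd Wd_eq id1 pb_id1 id1_nonneg id1_pos id1_neg
  ex_mono ex_add ex_mul ex_const ex_congr th0 th0_lt th0_gt th0_pos ns_nonneg ns_le_one exK tN)
open Pool.Agent.J4H26.PC (Iv Ph Ph_bd S_STM len_eq pb_dev_w)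
open Pool.Agent.J4H26.KT (IsE isE_ex fW Adm cw iw)
open Pool.Agent.J4H26.KP
open Pool.Agent.J4H55.PC (ns_z ns_anti root_bd root_tend pow_two_bd frac_bd steps)

theorem walks {θ δ dc ηc L S : ℝ} {t₁ : ℕ} (hθ0 : 0 < θ) (hθ1 : θ < 1) (hδ0 : 0 < δ) (hδ3 : δ ≤ (1 - θ) / 4)
    (hδ4 : δ ≤ θ / 2) (hδc : δ ≤ ηc / 4) (hdc0 : 0 < dc) (hdc1 : dc ≤ θ / 4) (hdc2 : dc ≤ (1 - θ) / 4)
    (hL0 : 0 < L) (hL1 : 1000 ≤ δ * L) (hS : S = th0 * t₁) (hSL : |S - θ * L| ≤ δ * L) (hT : t₁ ≤ ⌊(1 / th0) * L⌋₊) :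
    ⌊(θ / th0) * L⌋₊ ≤ ⌊(1 / th0) * L⌋₊ ∧ dc * ((⌊(1 / th0) * L⌋₊ : ℕ) : ℝ) ≤ t₁ ∧
      dc * ((⌊(1 / th0) * L⌋₊ : ℕ) : ℝ) ≤ ((⌊(θ / th0) * L⌋₊ : ℕ) : ℝ) ∧
      |(t₁ : ℝ) - ((⌊(θ / th0) * L⌋₊ : ℕ) : ℝ)| ≤ ηc * ((⌊(1 / th0) * L⌋₊ : ℕ) : ℝ) ∧
      dc * ((⌊(1 / th0) * L⌋₊ : ℕ) : ℝ) ≤ ((⌊(1 / th0) * L⌋₊ - t₁ : ℕ) : ℝ) := by
  have hth0 := th0_pos
  have hth1 := th0_lt
  have hηc : 0 < ηc := by linarith
  obtain ⟨T, hTd⟩ : ∃ T : ℕ, T = ⌊(1 / th0) * L⌋₊ := ⟨_, rfl⟩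
  obtain ⟨s, hsd⟩ : ∃ s : ℕ, s = ⌊(θ / th0) * L⌋₊ := ⟨_, rfl⟩
  have hsT : s ≤ T := by
    rw [hsd, hTd]
    apply Nat.floor_le_floor
    apply mul_le_mul_of_nonneg_right _ hL0.le
    exact div_le_div_of_nonneg_right hθ1.le hth0.le
  have hT1 : th0 * T ≤ L := by
    have h : (T : ℝ) ≤ (1 / th0) * L := by rw [hTd]; exact Nat.floor_le (by positivity)
    have h2 := mul_le_mul_of_nonneg_left h hth0.le
    rwa [← mul_assoc, mul_one_div_cancel hth0.ne', one_mul] at h2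
  have hT2 : L < th0 * T + th0 := by
    have h := Nat.lt_floor_add_one ((1 / th0) * L)
    rw [← hTd] at h
    have h2 := mul_lt_mul_of_pos_left h hth0
    rw [← mul_assoc, mul_one_div_cancel hth0.ne', one_mul] at h2
    linarith
  have hs1 : th0 * s ≤ θ * L := by
    have h : (s : ℝ) ≤ (θ / th0) * L := by rw [hsd]; exact Nat.floor_le (by positivity)
    have h2 := mul_le_mul_of_nonneg_left h hth0.le
    have e : th0 * ((θ / th0) * L) = θ * L := by field_simp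
    rwa [e] at h2
  have hs2 : θ * L < th0 * s + th0 := by
    have h := Nat.lt_floor_add_one ((θ / th0) * L)
    rw [← hsd] at h
    have h2 := mul_lt_mul_of_pos_left h hth0
    have e : th0 * ((θ / th0) * L) = θ * L := by field_simp
    rw [e] at h2
    linarith
  rw [← hTd] at hT
  rw [← hTd, ← hsd]
  rw [abs_le] at hSL
  have q1 : δ * L ≤ (1 - θ) / 4 * L := mul_le_mul_of_nonneg_right hδ3 hL0.le
  have q2 : δ * L ≤ θ / 2 * L := mul_le_mul_of_nonneg_right hδ4 hL0.le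
  have q3 : δ * L ≤ ηc / 4 * L := mul_le_mul_of_nonneg_right hδc hL0.le
  have q4 : dc * L ≤ θ / 4 * L := mul_le_mul_of_nonneg_right hdc1 hL0.le
  have q5 : dc * L ≤ (1 - θ) / 4 * L := mul_le_mul_of_nonneg_right hdc2 hL0.le
  have q6 : dc * (th0 * T) ≤ dc * L := mul_le_mul_of_nonneg_left hT1 hdc0.le
  have q7 : ηc * L ≤ ηc * (th0 * T) + ηc * th0 := by
    have := mul_le_mul_of_nonneg_left hT2.le hηc.le
    linarith
  have e1 : (1 - θ) / 4 * L = (L - θ * L) / 4 := by ring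
  rw [e1] at q1 q5
  have hL2 : 2000 ≤ L := by
    have h1 : δ ≤ 1 / 2 := by linarith
    have h2 := mul_le_mul_of_nonneg_right h1 hL0.le
    linarith
  have q8 : ηc * th0 ≤ ηc * L / 4 := by
    have : ηc * th0 ≤ ηc * (L / 4) := mul_le_mul_of_nonneg_left (by linarith) hηc.le
    linarith
  refine ⟨hsT, ?_, ?_, ?_, ?_⟩
  · apply le_of_mul_le_mul_left _ hth0
    have e2 : th0 * (dc * T) = dc * (th0 * T) := by ring
    rw [e2, ← hS]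
    linarith
  · apply le_of_mul_le_mul_left _ hth0
    have e2 : th0 * (dc * T) = dc * (th0 * T) := by ring
    rw [e2]
    linarith
  · apply le_of_mul_le_mul_left _ hth0
    have e2 : th0 * (ηc * T) = ηc * (th0 * T) := by ring
    have e3 : th0 * |(t₁ : ℝ) - s| = |S - th0 * s| := by
      rw [hS, ← mul_sub, abs_mul, abs_of_pos hth0]
    rw [e2, e3, abs_le]
    constructor <;> linarith
  · rw [Nat.cast_sub hT]
    apply le_of_mul_le_mul_left _ hth0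
    have e2 : th0 * (dc * T) = dc * (th0 * T) := by ring
    rw [e2, mul_sub, ← hS]
    linarith

theorem ratio_bd {θ δ L S : ℝ} {s t : ℕ} (hθ1 : θ < 1) (hδ2 : δ ≤ 1 / 2) (hδ3 : δ ≤ (1 - θ) / 4) (hL0 : 0 < L)
    (hS : S = th0 * s) (hSL : |S - θ * L| ≤ δ * L) (ht : |th0 * (s + t) - L| ≤ δ * L) : (s : ℝ) ≤ 4 / (1 - θ) * t := by
  have hth0 := th0_pos
  have hLth : 0 < 1 - θ := by linarith
  have e0 : th0 * ((s : ℝ) + t) = S + th0 * t := by rw [hS]; ring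
  rw [e0] at ht
  have hδL3 : δ * L ≤ (1 - θ) / 4 * L := mul_le_mul_of_nonneg_right hδ3 hL0.le
  have e1 : (1 - θ) / 4 * L = (L - θ * L) / 4 := by ring
  rw [e1] at hδL3
  have a1 : (1 - θ) / 2 * L ≤ th0 * t := by
    have e2 : (1 - θ) / 2 * L = (L - θ * L) / 2 := by ring
    rw [e2]
    rw [abs_le] at ht hSL
    linarith only [ht.1, ht.2, hSL.1, hSL.2, hδL3]
  have a2 : th0 * s ≤ 2 * L := by
    rw [← hS]
    have hθL : θ * L ≤ L := by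
      have := mul_le_mul_of_nonneg_right hθ1.le hL0.le
      linarith only [this]
    have hδL : δ * L ≤ 1 / 2 * L := mul_le_mul_of_nonneg_right hδ2 hL0.le
    rw [abs_le] at hSL
    linarith only [hSL.1, hSL.2, hθL, hδL, hL0]
  have a3 : th0 * s * (1 - θ) ≤ 4 * (th0 * t) := by
    calc th0 * s * (1 - θ) ≤ 2 * L * (1 - θ) := mul_le_mul_of_nonneg_right a2 hLth.le
      _ = 4 * ((1 - θ) / 2 * L) := by ring
      _ ≤ _ := mul_le_mul_of_nonneg_left a1 (by norm_num)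
  rw [div_mul_eq_mul_div, le_div_iff₀ hLth]
  have a4 : th0 * (s * (1 - θ)) ≤ th0 * (4 * t) := by
    calc th0 * (s * (1 - θ)) = th0 * s * (1 - θ) := by ring
      _ ≤ 4 * (th0 * t) := a3
      _ = _ := by ring
  exact le_of_mul_le_mul_left a4 hth0

/-- the heights at the base -/
theorem hts {L A S β : ℝ} {w : ℕ} (hw : 20 ≤ w) (hAS : |A - S - (w : ℝ) ^ 53| ≤ 1) (hAL : 2 * (w : ℝ) ^ 80 + A ≤ L)
    (b1 : β ≤ -(2 * (w : ℝ) ^ 46)) (b2 : -(2 * (w : ℝ) ^ 46) - 1 ≤ β) :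
    |(L - S + (1 - th0) * β) - (L - S)| ≤ 3 * (w : ℝ) ^ 46 ∧ L - S + (1 - th0) * β ≤ L - S ∧
      (w : ℝ) ^ 80 ≤ L - S + (1 - th0) * β ∧ 2 * (w : ℝ) ≤ A - S + (1 - th0) * β ∧ A - S + (1 - th0) * β ≤ (w : ℝ) ^ 54 := by
  have hth0 := th0_pos
  have hth1 := th0_lt
  have hw' : (20 : ℝ) ≤ w := by exact_mod_cast hw
  have hw1 : (1 : ℝ) ≤ w := by linarith
  have w46 : (1 : ℝ) ≤ (w : ℝ) ^ 46 := one_le_pow₀ hw1
  have c1 : (w : ℝ) ≤ (w : ℝ) ^ 46 := le_self_pow₀ hw1 (by norm_num)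
  have c2 : 20 * (w : ℝ) ^ 46 ≤ (w : ℝ) ^ 53 := by
    calc 20 * (w : ℝ) ^ 46 ≤ (w : ℝ) ^ 7 * (w : ℝ) ^ 46 := by
          apply mul_le_mul_of_nonneg_right _ (by positivity)
          exact hw'.trans (le_self_pow₀ hw1 (by norm_num))
      _ = (w : ℝ) ^ 53 := by rw [← pow_add]
  have c3 : 20 * (w : ℝ) ^ 53 ≤ (w : ℝ) ^ 54 := by
    rw [pow_succ (w : ℝ) 53, mul_comm]
    exact mul_le_mul_of_nonneg_left hw' (by positivity)
  have c4 : (w : ℝ) ^ 53 ≤ (w : ℝ) ^ 80 := pow_le_pow_right₀ hw1 (by norm_num)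
  have d1 : (1 - th0) * β ≤ 0 := mul_nonpos_of_nonneg_of_nonpos (by linarith) (by linarith)
  have d2 : -(3 * (w : ℝ) ^ 46) ≤ (1 - th0) * β := by
    have h1 : β ≤ (1 - th0) * β := by nlinarith
    linarith
  rw [abs_le] at hAS
  refine ⟨?_, ?_, ?_, ?_, ?_⟩
  · rw [abs_le]; constructor <;> linarith
  · linarith
  · linarith
  · linarith
  · linarith

theorem sq_two_bd (w : ℕ) : (w : ℝ) ^ 2 ≤ (2 : ℝ) ^ (2 * (w : ℝ)) := by
  rw [mul_comm (2 : ℝ) (w : ℝ), Real.rpow_mul (by norm_num : (0 : ℝ) ≤ 2) (w : ℝ) 2, Real.rpow_natCast, Real.rpow_two]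
  have h : (w : ℝ) ≤ 2 ^ w := by exact_mod_cast (Nat.lt_two_pow_self (n := w)).le
  exact pow_le_pow_left₀ (Nat.cast_nonneg w) h 2

theorem mom_aux (hS : S_STM) (hG : S_GAMK) (hC : S_COR2) (hP : S_PAT) (n : ℕ) (hn : 1 ≤ n) (ψ : ℝ → ℝ)
    (hψ : Tendsto ψ atTop (nhds 0)) (θ : ℝ) (hθ0 : 0 < θ) (hθ1 : θ < 1) (ε : ℝ) (hε : 0 < ε) : ∀ᶠ N : ℕ in atTop,
    ∀ (F : Fin n → ℤ → ℝ) (κ : ℝ) (m : Finset (Fin n) → ℝ), CentK ψ F κ m → ∀ a : ℝ, (N : ℝ) ^ θ / 2 ≤ a →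
    a ≤ 2 * (N : ℝ) ^ θ →
    |(∫ x in (κ * N)..(κ * N + N), ∏ i, Ph (F i) x a) / N -
      iw (cw (mZ m) (tN (1 / th0) N - tN (θ / th0) N)) (tN (θ / th0) N) (fun _ => 0)| ≤ ε := by
  obtain ⟨C, hC0, hstm⟩ := hS
  have hn0 : (0 : ℝ) < n := by exact_mod_cast hn
  obtain ⟨dc, hdcd⟩ : ∃ dc, dc = min (θ / 4) ((1 - θ) / 4) := ⟨_, rfl⟩
  have hdc0 : 0 < dc := by rw [hdcd]; apply lt_min <;> linarith
  have hdc1 : dc ≤ θ / 4 := by rw [hdcd]; exact min_le_left _ _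
  have hdc2 : dc ≤ (1 - θ) / 4 := by rw [hdcd]; exact min_le_right _ _
  clear hdcd
  obtain ⟨ηc, hηc, hcont⟩ := Pool.Agent.J4H39.t_CONT n dc (ε / 8) hdc0 (by positivity)
  have hwd := Pool.Agent.J4H26.KT.t_WD n dc (ε / 8) hdc0 (by positivity)
  obtain ⟨e', he'd⟩ : ∃ e', e' = ε / (640 * (n : ℝ) ^ 2) := ⟨_, rfl⟩
  have he'0 : 0 < e' := by rw [he'd]; positivity
  have hcon : Continuous (fun u : ℝ => 2 / π * arcsin √u) :=
    continuous_const.mul (Real.continuous_arcsin.comp Real.continuous_sqrt)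
  obtain ⟨δ₀, hδ₀, hδ⟩ := Metric.continuous_iff.1 hcon θ e' he'0
  obtain ⟨δ, hδd⟩ : ∃ δ, δ = min (min (min (δ₀ / 8) (1 / 2)) (min ((1 - θ) / 4) (θ / 2))) (ηc / 4) := ⟨_, rfl⟩
  have hδ0 : 0 < δ := by
    rw [hδd]
    apply lt_min _ (by linarith)
    apply lt_min <;> apply lt_min <;> [positivity; norm_num; linarith; linarith]
  have hδ1 : δ ≤ δ₀ / 8 := by rw [hδd]; exact (min_le_left _ _).trans ((min_le_left _ _).trans (min_le_left _ _))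
  have hδ2 : δ ≤ 1 / 2 := by rw [hδd]; exact (min_le_left _ _).trans ((min_le_left _ _).trans (min_le_right _ _))
  have hδ3 : δ ≤ (1 - θ) / 4 := by rw [hδd]; exact (min_le_left _ _).trans ((min_le_right _ _).trans (min_le_left _ _))
  have hδ4 : δ ≤ θ / 2 := by rw [hδd]; exact (min_le_left _ _).trans ((min_le_right _ _).trans (min_le_right _ _))
  have hδc : δ ≤ ηc / 4 := by rw [hδd]; exact min_le_right _ _
  clear hδd
  have hφ : ∀ S W L : ℝ, 0 < L → |S - θ * L| ≤ δ * L → |W - L| ≤ δ * L →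
      |2 / π * arcsin √(S / W) - 2 / π * arcsin √θ| ≤ e' := by
    intro S W L hL h1 h2
    have h3 := frac_bd hθ0 hθ1 hδ0 hδ2 hL h1 h2
    have h4 := hδ (S / W) (by rw [Real.dist_eq]; linarith)
    rw [Real.dist_eq] at h4
    exact h4.le
  obtain ⟨k₀, s₀, hK⟩ := Pool.Agent.J4H39.K_law he'0 (C := 4 / (1 - θ)) (by
    have : 0 < 1 - θ := by linarith
    positivity)
  obtain ⟨η₀, hη₀, hcor⟩ := hC ψ hψ n (ε / 16) (δ / 2) (by positivity) (by positivity)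
  obtain ⟨η, hηd⟩ : ∃ η, η = min (η₀ / 2) (δ / 16) := ⟨_, rfl⟩
  have hη0 : 0 < η := by rw [hηd]; apply lt_min <;> positivity
  have hη1 : η < η₀ := by
    have : η ≤ η₀ / 2 := by rw [hηd]; exact min_le_left _ _
    linarith
  have hη2 : 16 * η ≤ δ := by
    have : η ≤ δ / 16 := by rw [hηd]; exact min_le_right _ _
    linarith
  clear hηd
  obtain ⟨T₀, hT₀⟩ := eventually_atTop.1 (hcor η hη0 hη1)
  have hgam := hG n (ε / 16) (by positivity)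
  have hcη : 0 < (1 - θ) * η := mul_pos (by linarith) hη0
  have hwev : ∀ᶠ w : ℕ in atTop, 2 ^ n * (n * (C / √(w : ℝ))) ≤ ε / 8 ∧ n * ((2 ^ n + 1) * (400 / (w : ℝ))) ≤ ε / 8 ∧
      1000 ≤ δ * w ∧ 10000 ≤ ((1 - θ) * η) * w ∧ s₀ ≤ w ∧ k₀ ≤ w ∧ T₀ ≤ w ∧ 200 ≤ w := by
    have e1 : Tendsto (fun w : ℕ => 2 ^ n * (n * (C / √(w : ℝ)))) atTop (nhds 0) := by
      have h1 : Tendsto (fun w : ℕ => C / √(w : ℝ)) atTop (nhds 0) :=
        (Real.tendsto_sqrt_atTop.comp (tendsto_natCast_atTop_atTop (R := ℝ))).const_div_atTop C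
      have h2 := (h1.const_mul (n : ℝ)).const_mul ((2 : ℝ) ^ n)
      simpa using h2
    have e2 : Tendsto (fun w : ℕ => n * ((2 ^ n + 1) * (400 / (w : ℝ)))) atTop (nhds 0) := by
      have h1 : Tendsto (fun w : ℕ => 400 / (w : ℝ)) atTop (nhds 0) :=
        (tendsto_natCast_atTop_atTop (R := ℝ)).const_div_atTop 400
      have h2 := (h1.const_mul ((2 : ℝ) ^ n + 1)).const_mul (n : ℝ)
      simpa using h2
    have e3 : Tendsto (fun w : ℕ => δ * (w : ℝ)) atTop atTop := (tendsto_natCast_atTop_atTop (R := ℝ)).const_mul_atTop hδ0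
    have e4 : Tendsto (fun w : ℕ => ((1 - θ) * η) * (w : ℝ)) atTop atTop :=
      (tendsto_natCast_atTop_atTop (R := ℝ)).const_mul_atTop hcη
    filter_upwards [e1.eventually_le_const (show (0 : ℝ) < ε / 8 by positivity),
      e2.eventually_le_const (show (0 : ℝ) < ε / 8 by positivity), e3.eventually_ge_atTop 1000, e4.eventually_ge_atTop 10000,
      eventually_ge_atTop s₀, eventually_ge_atTop k₀, eventually_ge_atTop T₀, eventually_ge_atTop 200] with w a b c d e f g h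
    exact ⟨a, b, c, d, e, f, g, h⟩
  filter_upwards [(root_tend 85 (by norm_num)).eventually (hstm.and (hgam.and hwev)), tN_tend.eventually (hwd.and hcont),
    eventually_ge_atTop 2] with N hw hT hN2 F κ m hcent a ha1 ha2
  have hN0 : (0 : ℝ) < N := by exact_mod_cast (by omega : 0 < N)
  have hN1 : (1 : ℝ) < N := by exact_mod_cast (by omega : 1 < N)
  obtain ⟨hwd, hcont⟩ := hT
  unfold tN at hwd hcont ⊢
  obtain ⟨L, hLd⟩ : ∃ L, L = logb 2 (N : ℝ) := ⟨_, rfl⟩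
  rw [← hLd] at hw hwd hcont ⊢
  have hL0 : 0 < L := by rw [hLd]; exact Real.logb_pos (by norm_num) hN1
  have rw1 := root_bd 85 (by norm_num) hL0.le
  obtain ⟨w, hwd'⟩ : ∃ w : ℕ, w = ⌊L ^ (((85 : ℕ) : ℝ)⁻¹)⌋₊ := ⟨_, rfl⟩
  rw [← hwd'] at hw rw1
  clear hwd'
  obtain ⟨hstm, hgam, hw1, hw2, hw3, hw4, hw5, hw6, hw7, hw8⟩ := hw
  have hLw2 := rw1.2.trans (pow_two_bd 85 (by omega))
  have hLw1 := rw1.1
  have hNt : 0 < (N : ℝ) ^ θ := Real.rpow_pos_of_pos hN0 _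
  have ha0 : 0 < a := lt_of_lt_of_le (by positivity) ha1
  obtain ⟨A, hAd⟩ : ∃ A, A = logb 2 a := ⟨_, rfl⟩
  have hA1 : θ * L - 1 ≤ A := by
    have h := (Real.logb_le_logb (by norm_num : (1 : ℝ) < 2) (by positivity) ha0).2 ha1
    rw [Real.logb_div hNt.ne' (by norm_num), Real.logb_rpow_eq_mul_logb_of_pos hN0, Real.logb_self_eq_one (by norm_num),
      ← hLd, ← hAd] at h
    exact h
  have hA2 : A ≤ θ * L + 1 := by
    have h := (Real.logb_le_logb (by norm_num : (1 : ℝ) < 2) ha0 (by positivity)).2 ha2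
    rw [Real.logb_mul (by norm_num) hNt.ne', Real.logb_rpow_eq_mul_logb_of_pos hN0, Real.logb_self_eq_one (by norm_num),
      ← hLd, ← hAd] at h
    linarith
  obtain ⟨t₁, ht52, ht88, hlen, hAL, hSL, hSL1, ht10⟩ := steps hθ1 hδ0 hδ3 hδ4 (by omega : 1 ≤ w) hw3 hL0 hLw1 hLw2 hA1 hA2
  have ht1' : 1 ≤ t₁ := le_trans (Nat.one_le_pow _ _ (by omega)) ht52
  have hth0 := th0_pos
  obtain ⟨S, hSd⟩ : ∃ S : ℝ, S = th0 * t₁ := ⟨_, rfl⟩
  rw [← hSd] at hlen hSL hSL1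
  have hS0 : 0 ≤ S := by rw [hSd]; positivity
  have hw1' : (1 : ℝ) ≤ w := by exact_mod_cast (by omega : 1 ≤ w)
  -- the base
  obtain ⟨b1, b2⟩ := base (by omega : 20 ≤ w) ht52
  have hgeo := fun o : ℕ => geo (o := o) (by omega : 20 ≤ w) ht52
  obtain ⟨o₀, ho₀⟩ : ∃ o₀, o₀ = t₁ / 2 - w ^ 46 := ⟨_, rfl⟩
  rw [← ho₀] at b1 b2 hgeo
  clear ho₀
  obtain ⟨X, hX⟩ : ∃ X : ℝ, X = 3 ^ o₀ * N / 2 ^ t₁ := ⟨_, rfl⟩
  obtain ⟨b, hb⟩ : ∃ b : ℝ, b = 3 ^ o₀ * a / 2 ^ t₁ := ⟨_, rfl⟩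
  have hX0 : 0 < X := by rw [hX]; positivity
  have hb0 : 0 < b := by rw [hb]; positivity
  have hXl : logb 2 X = L - S + (1 - th0) * (2 * (o₀ : ℝ) - t₁) := by
    rw [hX, len_eq (w := 0) hN0, ← hLd, ← hSd]
  have hbl : logb 2 b = A - S + (1 - th0) * (2 * (o₀ : ℝ) - t₁) := by
    rw [hb, len_eq (w := 0) ha0, ← hAd, ← hSd]
  obtain ⟨y1, y2, y3, y4, y5⟩ := hts (by omega : 20 ≤ w) hlen hAL b1 b2
  rw [← hXl] at y1 y2 y3
  rw [← hbl] at y4 y5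
  have hX80 : (2 : ℝ) ^ (w ^ 80) ≤ X := by
    rw [show (2 : ℝ) ^ (w ^ 80) = (2 : ℝ) ^ ((w ^ 80 : ℕ) : ℝ) from (Real.rpow_natCast 2 _).symm,
      ← Real.le_logb_iff_rpow_le (by norm_num) hX0]
    push_cast
    exact y3
  have hb54 : b ≤ (2 : ℝ) ^ (w ^ 54) := by
    rw [show (2 : ℝ) ^ (w ^ 54) = (2 : ℝ) ^ ((w ^ 54 : ℕ) : ℝ) from (Real.rpow_natCast 2 _).symm,
      ← Real.logb_le_iff_le_rpow (by norm_num) hb0]
    push_cast
    exact y5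
  have hb2 : (w : ℝ) ^ 2 ≤ b := by
    refine (sq_two_bd w).trans ?_
    rw [← Real.le_logb_iff_rpow_le (by norm_num) hb0]
    exact y4
  -- the numbers of steps
  obtain ⟨gT, t₂, h84, h85, hz1, hz2, hle1, hle2, hW2, hW3⟩ := nums hθ0 hθ1 hδ0 hδ3 hη0 hη2 (by omega : 1 ≤ w) hw4 hL0 hLw1 hLw2
    hSd hS0 hSL y1 y2
  have hδL : 1000 ≤ δ * L := by
    have p := Pool.Agent.J4H55.PC.pw 0 85 (by omega : 1 ≤ w) (by norm_num) hδ0 hw3
    rw [pow_zero, mul_one] at p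
    have := mul_le_mul_of_nonneg_left hLw1 hδ0.le
    linarith
  obtain ⟨k1, k2, k3, k4, k5⟩ := walks hθ0 hθ1 hδ0 hδ3 hδ4 hδc hdc0 hdc1 hdc2 hL0 hδL hSd hSL gT
  obtain ⟨TT, hTT⟩ : ∃ TT : ℕ, TT = ⌊(1 / th0) * L⌋₊ := ⟨_, rfl⟩
  obtain ⟨s, hs⟩ : ∃ s : ℕ, s = ⌊(θ / th0) * L⌋₊ := ⟨_, rfl⟩
  rw [← hTT] at gT hle1 hle2 k1 k2 k3 k4 k5 hwd hcont ⊢
  rw [← hs] at k1 k3 k4 ⊢
  obtain ⟨t₃, ht₃⟩ : ∃ t₃ : ℕ, t₃ = t₂ + ⌊δ / 2 * (t₂ : ℝ)⌋₊ := ⟨_, rfl⟩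
  rw [← ht₃] at hle2 hW3
  obtain ⟨t', ht'⟩ : ∃ t' : ℕ, t' = TT - t₁ := ⟨_, rfl⟩
  rw [← ht'] at hle1 hle2 k5
  have hsum1 : t₁ + t' = TT := by omega
  have hsum2 : s + (TT - s) = TT := by omega
  -- the functions
  have hFiv : ∀ i, Iv (F i) := by
    intro i
    have h := (hcent {i} (singleton_nonempty i)).1
    simpa using h
  have hmB : ∀ B : Finset (Fin n), B.Nonempty → |m B| ≤ 1 := fun B hB => (hcent B hB).2.1
  have hκ : |κ| ≤ 1 := by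
    obtain ⟨q, hq⟩ := (hcent {⟨0, hn⟩} (singleton_nonempty _)).2.2
    exact hq.kp
  -- windows
  have ha52 : (2 : ℝ) ^ (th0 * t₁ + (w : ℝ) ^ 52) ≤ a := by
    rw [← Real.le_logb_iff_rpow_le (by norm_num) ha0, ← hAd, ← hSd]
    have hpw : (w : ℝ) ^ 52 + 1 ≤ (w : ℝ) ^ 53 := by
      have h1 : (1 : ℝ) ≤ (w : ℝ) ^ 52 := one_le_pow₀ hw1'
      have h2 : (2 : ℝ) ≤ w := by exact_mod_cast (by omega : 2 ≤ w)
      rw [pow_succ (w : ℝ) 52]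
      nlinarith only [h1, h2]
    rw [abs_le] at hlen
    linarith only [hlen.1, hpw]
  have hI1 := win_step hFiv (κ := κ) (a := a) (ε := C / √(w : ℝ)) hN0 (t := t₁)
    (fun i x => hstm t₁ ht52 ht88 (F i) (hFiv i) x a ha52)
  -- pointwise
  obtain ⟨V₂, hV₂⟩ : ∃ V, V = ex t₁ (fun y => ex t₁ (fun y' => ns t₂ ((od t₁ y' : ℤ) - od t₁ y, 0))) := ⟨_, rfl⟩
  obtain ⟨V₃, hV₃⟩ : ∃ V, V = ex t₁ (fun y => ex t₁ (fun y' => ns t₃ ((od t₁ y' : ℤ) - od t₁ y, 0))) := ⟨_, rfl⟩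
  have hw84 : (w : ℝ) ≤ (w : ℝ) ^ 84 := le_self_pow₀ hw1' (by norm_num)
  have hwt2 : w ≤ t₂ := by exact_mod_cast hw84.trans h84
  have hwt1 : w ≤ t₁ := (Nat.le_self_pow (by norm_num) w).trans ht52
  have ht23 : t₂ ≤ t₃ := by rw [ht₃]; exact Nat.le_add_right _ _
  have r2 := ratio_bd hθ1 hδ2 hδ3 hL0 hSd hSL hW2
  have r3 := ratio_bd hθ1 hδ2 hδ3 hL0 hSd hSL hW3
  have K2 := hK t₂ (hw6.trans hwt2) t₁ (hw5.trans hwt1) r2
  have K3 := hK t₃ (hw6.trans (hwt2.trans ht23)) t₁ (hw5.trans hwt1) r3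
  have hsq : ∀ t : ℕ, (t₁ : ℝ) / (t₁ + t) = S / (th0 * (t₁ + t)) := by
    intro t
    rw [hSd, mul_div_mul_left _ _ hth0.ne']
  rw [hsq, ← hV₂] at K2
  rw [hsq, ← hV₃] at K3
  have F2 := hφ S (th0 * (t₁ + t₂)) L hL0 hSL hW2
  have F3 := hφ S (th0 * (t₁ + t₃)) L hL0 hSL hW3
  have g2 : |V₂ - 2 / π * arcsin √θ| ≤ 2 * e' := by
    refine (abs_sub_le _ _ _).trans ((add_le_add K2 F2).trans (le_of_eq ?_)); ring
  have g3 : |V₃ - 2 / π * arcsin √θ| ≤ 2 * e' := by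
    refine (abs_sub_le _ _ _).trans ((add_le_add K3 F3).trans (le_of_eq ?_)); ring
  have hmean := mean_err (n := n) hV₂ hV₃ g2 g3
  have hcor' := hT₀ t₂ (hw7.trans hwt2) F κ m hcent X hX0 hz1 hz2
  rw [← ht₃] at hcor'
  have hcmp := exK_cmp (s := t₁) (K := n) (F := HH F κ a N t₁)
    (G := fun y => Wd t' (fun _ p => mR (mx m) p) (fun i => od t₁ (y i)))
    (R := fun y => 2 * (ε / 16) + 10 * ∑ i, ∑ j, (ns t₂ ((od t₁ (y i) : ℤ) - od t₁ (y j), 0) -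
      ns t₃ ((od t₁ (y i) : ℤ) - od t₁ (y j), 0)))
    (Bad := fun y => (w : ℝ) ^ 45 ≤ |2 * (od t₁ y : ℝ) - t₁|) (M := 2 ^ n + 1) (by positivity)
    (fun y => by
      have : 0 ≤ ∑ i, ∑ j, (ns t₂ ((od t₁ (y i) : ℤ) - od t₁ (y j), 0) - ns t₃ ((od t₁ (y i) : ℤ) - od t₁ (y j), 0)) :=
        sum_nonneg (fun i _ => sum_nonneg (fun j _ => by
          have := ns_anti ht23 ((od t₁ (y i) : ℤ) - od t₁ (y j), 0)
          linarith only [this]))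
      linarith only [this, hε])
    (fun y hy => by
      have hg := fun i => hgeo (od t₁ (y i)) (not_le.1 (hy i))
      have hD := fun i => Dran (by omega : 20 ≤ w) h84 h85 (hg i).2.1 (hg i).2.2
      refine point hN0 hX hb (fun i => (hg i).1) ?_ ?_ hP hmB hle1 hle2
      · apply hgam F hFiv κ X b hκ hX80 hb2 hb54
        intro i
        have h1 : ((od t₁ (y i) - o₀ : ℕ) : ℝ) ≤ (w : ℝ) ^ 48 := by
          refine (hg i).2.2.trans ?_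
          have h2 : (2 : ℝ) ≤ (w : ℝ) ^ 2 := by
            have : (2 : ℝ) ≤ w := by exact_mod_cast (by omega : 2 ≤ w)
            nlinarith only [this]
          calc 2 * (w : ℝ) ^ 46 ≤ (w : ℝ) ^ 2 * (w : ℝ) ^ 46 := mul_le_mul_of_nonneg_right h2 (by positivity)
            _ = (w : ℝ) ^ 48 := by rw [← pow_add]
        exact_mod_cast h1
      · exact hcor' (fun i => od t₁ (y i) - o₀) hD)
    (fun y => by
      have h1 := HH_bd hFiv κ a hN0 t₁ y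
      have h2 := Pool.Agent.J4H26.KT.Wd_abs (q := t') (g := fun _ p => mR (mx m) p) (fun _ p => mR_abs (mx_abs hmB) p)
        (fun i => od t₁ (y i))
      rw [abs_le] at h1 h2 ⊢
      constructor <;> linarith only [h1.1, h1.2, h2.1, h2.2])
  rw [(isE_exK t₁ n).add, (isE_exK t₁ n).const, (isE_exK t₁ n).smul] at hcmp
  have hbad := pb_dev_w (by omega : 1 ≤ w) ht1' ht88
  have hbad2 : (n : ℝ) * ((2 ^ n + 1) * pb t₁ (fun y => (w : ℝ) ^ 45 ≤ |2 * (od t₁ y : ℝ) - t₁|)) ≤ ε / 8 := by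
    refine le_trans ?_ hw2
    apply mul_le_mul_of_nonneg_left _ hn0.le
    exact mul_le_mul_of_nonneg_left hbad (by positivity)
  have he2 : (n : ℝ) ^ 2 * (2 * (2 * e')) = ε / 160 := by
    rw [he'd]; field_simp; norm_num
  rw [he2] at hmean
  -- walks
  have hI3 : |exK t₁ n (fun y => Wd t' (fun _ p => mR (mx m) p) (fun i => od t₁ (y i))) -
      iw (cw (fW (fun _ p => mR (mx m) p) (TT : ℝ)) t') t₁ (fun _ => 0)| ≤ ε / 8 :=
    hwd t₁ t' hsum1 k5 (fun _ p => mR (mx m) p) (adm_mx (mx_abs hmB))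
  have hfW : fW (fun (_ : Fin n → ℝ) (p : Fin n → Fin n → Prop) => mR (mx m) p) (TT : ℝ) = mZ m := by
    funext u
    exact mZ_mx m u
  rw [hfW] at hI3
  have hI4 := hcont t₁ s t' (TT - s) hsum1 hsum2 k2 k3 k4 (mZ m) (fun u => by
    rw [← mZ_mx m u]; exact mR_abs (mx_abs hmB) _)
  rw [abs_le] at hI1 hcmp hI3 hI4 ⊢
  constructor <;> linarith only [hI1.1, hI1.2, hcmp.1, hcmp.2, hI3.1, hI3.2, hI4.1, hI4.2, hw1, hbad2, hmean, hε]

theorem t_MOM (hS : S_STM) (hG : S_GAMK) (hC : S_COR2) (hP : S_PAT) : S_MOM :=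
  fun ψ hψ K θ hθ0 hθ1 ε hε => mom_aux hS hG hC hP (K + 1) (Nat.succ_le_succ (Nat.zero_le K)) ψ hψ θ hθ0 hθ1 ε hε

end Pool.Agent.J4H55.KP
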