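import Mathlib
import Pool.Agent.J4H26.KP.Lm
import Pool.Agent.J4H26.KT.C

set_option autoImplicit false

/-! Project KP, part N2: the distribution functions of coalescing walks at two scales. -/

namespace Pool.Agent.J4H55.KP

open Finset Filter Real
open Pool.Agent.J4H26.AF (Fb Phi Rw coal coal_eq det_dif Fb_mem)
open Pool.Agent.J4H26.KT (cw ind ymin ymin_ex ymin_le ymin_mono cw_ymin coal_cw cw_perm)
open Pool.Agent.J4H26.KP

variable {K : ℕ}

theorem ymin_comp {g : ℤ → ℤ} (hg : Monotone g) (f : Fin K → ℤ) (i : Fin K) : ymin (fun j => g (f j)) i = g (ymin f i) := by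
  apply le_antisymm
  · obtain ⟨l, hl, e⟩ := ymin_ex f i
    rw [e]
    exact ymin_le (fun j => g (f j)) hl
  · obtain ⟨l, hl, e⟩ := ymin_ex (fun j => g (f j)) i
    rw [e]
    exact hg (ymin_le f hl)

theorem ind_perm (σ : Equiv.Perm (Fin K)) (y u : Fin K → ℤ) : ind (fun i => y (σ i)) (fun i => u (σ i)) = ind y u := by
  unfold ind
  have : (∀ i, u (σ i) ≤ y (σ i)) ↔ ∀ i, u i ≤ y i :=
    ⟨fun h i => by simpa using h (σ.symm i), fun h i => h (σ i)⟩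
  simp only [this]

/-- the determinant formula for starts and thresholds in any order -/
theorem cw_det (σ : Equiv.Perm (Fin K)) (y z : Fin K → ℤ) (t : ℕ) (hz : Monotone (fun i => z (σ i))) :
    cw (ind y) t z = Phi (ymin (fun i => y (σ i))) t (fun i => z (σ i)) := by
  rw [← coal_eq _ (ymin_mono _) t _ hz, coal_cw, ← cw_ymin _ t hz, cw_perm σ]
  congr 1
  funext u
  exact (ind_perm σ y u).symm

theorem argdif {h h' E B z z' β c : ℝ} {t t' : ℕ} (hE : |E| ≤ B) (hh : |h / √(t : ℝ) - h' / √(t' : ℝ)| ≤ β)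
    (hz : |z / √(t : ℝ) - z' / √(t' : ℝ)| ≤ β) (ht : 3 / √(t : ℝ) ≤ c) (ht' : 3 / √(t' : ℝ) ≤ c) {d d' : ℝ}
    (hd : |d - (h * E - z + t / 2)| ≤ 3 / 2) (hd' : |d' - (h' * E - z' + t' / 2)| ≤ 3 / 2) :
    |(2 * d - t) / √(t : ℝ) - (2 * d' - t') / √(t' : ℝ)| ≤ 2 * (B + 1) * β + 2 * c := by
  have hs : 0 ≤ √(t : ℝ) := Real.sqrt_nonneg _
  have hs' : 0 ≤ √(t' : ℝ) := Real.sqrt_nonneg _
  have e1 : (2 * d - t) / √(t : ℝ) - (2 * d' - t') / √(t' : ℝ) = 2 * (E * (h / √(t : ℝ) - h' / √(t' : ℝ))) -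
      2 * (z / √(t : ℝ) - z' / √(t' : ℝ)) + 2 * (d - (h * E - z + t / 2)) / √(t : ℝ) -
      2 * (d' - (h' * E - z' + t' / 2)) / √(t' : ℝ) := by ring
  rw [e1]
  have b1 : |E * (h / √(t : ℝ) - h' / √(t' : ℝ))| ≤ B * β := by
    rw [abs_mul]
    exact mul_le_mul hE hh (abs_nonneg _) ((abs_nonneg _).trans hE)
  have b2 : |2 * (d - (h * E - z + t / 2)) / √(t : ℝ)| ≤ c := by
    rw [abs_div, abs_of_nonneg hs, abs_mul, abs_two]
    exact (div_le_div_of_nonneg_right (by linarith) hs).trans ht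
  have b3 : |2 * (d' - (h' * E - z' + t' / 2)) / √(t' : ℝ)| ≤ c := by
    rw [abs_div, abs_of_nonneg hs', abs_mul, abs_two]
    exact (div_le_div_of_nonneg_right (by linarith) hs').trans ht'
  rw [abs_le] at b1 b2 b3 hz ⊢
  constructor <;> linarith [b1.1, b1.2, b2.1, b2.2, b3.1, b3.2, hz.1, hz.2]

theorem dd_bd (h : ℕ) (E z : ℤ) (t : ℕ) :
    |(((h : ℤ) * E - 1 - (z - (t / 2 : ℕ)) : ℤ) : ℝ) - ((h : ℝ) * (E : ℝ) - z + t / 2)| ≤ 3 / 2 := by
  have h1 : 2 * (t / 2) ≤ t ∧ t ≤ 2 * (t / 2) + 1 := by omega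
  have h2 : (2 : ℝ) * ((t / 2 : ℕ) : ℝ) ≤ t := by exact_mod_cast h1.1
  have h3 : (t : ℝ) ≤ 2 * ((t / 2 : ℕ) : ℝ) + 1 := by exact_mod_cast h1.2
  have e : (((h : ℤ) * E - 1 - (z - (t / 2 : ℕ)) : ℤ) : ℝ) = (h : ℝ) * (E : ℝ) - 1 - ((z : ℝ) - ((t / 2 : ℕ) : ℝ)) := by
    simp only [Int.cast_sub, Int.cast_mul, Int.cast_natCast, Int.cast_one]
  rw [e, abs_le]
  constructor <;> linarith

theorem t_CDFE (hB : S_BIN) : S_CDFE := by
  intro K B ε hB0 hε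
  obtain ⟨Q, hQ⟩ : ∃ Q : ℝ, Q = (K.factorial : ℝ) * K + 1 := ⟨_, rfl⟩
  have hQ0 : 0 < Q := by rw [hQ]; positivity
  obtain ⟨e0, he0⟩ : ∃ e0 : ℝ, e0 = ε / Q := ⟨_, rfl⟩
  have he : 0 < e0 := by rw [he0]; positivity
  obtain ⟨t₁, ht₁⟩ := hB (e0 / 4) (by positivity)
  have hlim : Tendsto (fun t : ℕ => 3 / √(t : ℝ)) atTop (nhds 0) :=
    (Real.tendsto_sqrt_atTop.comp (tendsto_natCast_atTop_atTop (R := ℝ))).const_div_atTop 3
  obtain ⟨t₂, ht₂⟩ := eventually_atTop.1 (hlim.eventually_le_const (show (0 : ℝ) < e0 / 8 by positivity))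
  have hB1 : 0 < B + 1 := by linarith
  refine ⟨e0 / (4 * (B + 1)), by positivity, max t₁ t₂, ?_⟩
  intro t t' ht ht' h h' hh1 hh1' hh e heB z z' hσ hz
  obtain ⟨σ, hσ1, hσ2⟩ := hσ
  obtain ⟨E, hE⟩ : ∃ E : Fin K → ℤ, E = ymin (fun i => e (σ i)) := ⟨_, rfl⟩
  have hEB : ∀ j, |(E j : ℝ)| ≤ B := by
    intro j
    obtain ⟨l, _, el⟩ := ymin_ex (fun i => e (σ i)) j
    rw [hE, el]
    exact heB _
  have hy : ∀ h : ℕ, ymin (fun i => (h : ℤ) * e (σ i) - 1) = fun j => (h : ℤ) * E j - 1 := by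
    intro h
    funext j
    rw [hE]
    exact ymin_comp (g := fun x => (h : ℤ) * x - 1) (fun a b hab => by
      have := mul_le_mul_of_nonneg_left hab (Nat.cast_nonneg (α := ℤ) h)
      simp only
      linarith) (fun i => e (σ i)) j
  rw [cw_det σ _ (fun i => z i - (t / 2 : ℕ)) t (fun a b hab => by have := hσ1 hab; simp only at this ⊢; linarith),
    cw_det σ _ (fun i => z' i - (t' / 2 : ℕ)) t' (fun a b hab => by have := hσ2 hab; simp only at this ⊢; linarith),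
    hy h, hy h']
  unfold Phi
  have key := det_dif (k := K) (fun i => Rw (fun j => (h : ℤ) * E j - 1) i t (z (σ i) - (t / 2 : ℕ)))
    (fun i => Rw (fun j => (h' : ℤ) * E j - 1) i t' (z' (σ i) - (t' / 2 : ℕ))) (fun _ => 1) (e := e0) he.le
    (fun i j => ?_) (fun i j => ?_) (fun i j => ?_)
  · refine key.trans ?_
    rw [prod_const_one, mul_one]
    have h1 : (K.factorial : ℝ) * (K * e0) ≤ Q * e0 := by
      rw [hQ]
      linarith
    refine h1.trans ?_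
    rw [he0, mul_div_cancel₀ _ hQ0.ne']
  · unfold Rw
    have := Fb_mem t ((h : ℤ) * E j - 1 - (z (σ i) - (t / 2 : ℕ)))
    split_ifs <;> rw [abs_le] <;> constructor <;> linarith [this.1, this.2]
  · unfold Rw
    have := Fb_mem t' ((h' : ℤ) * E j - 1 - (z' (σ i) - (t' / 2 : ℕ)))
    split_ifs <;> rw [abs_le] <;> constructor <;> linarith [this.1, this.2]
  · have b1 := ht₁ t t' ((le_max_left _ _).trans ht) ((le_max_left _ _).trans ht')
      ((h : ℤ) * E j - 1 - (z (σ i) - (t / 2 : ℕ))) ((h' : ℤ) * E j - 1 - (z' (σ i) - (t' / 2 : ℕ)))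
    have b2 := argdif (hEB j) hh (hz (σ i)) (ht₂ t ((le_max_right _ _).trans ht)) (ht₂ t' ((le_max_right _ _).trans ht'))
      (dd_bd h (E j) (z (σ i)) t) (dd_bd h' (E j) (z' (σ i)) t')
    have e3 : 2 * (B + 1) * (e0 / (4 * (B + 1))) = e0 / 2 := by
      field_simp
      norm_num
    rw [e3] at b2
    have e4 : Rw (fun j => (h : ℤ) * E j - 1) i t (z (σ i) - (t / 2 : ℕ)) j -
        Rw (fun j => (h' : ℤ) * E j - 1) i t' (z' (σ i) - (t' / 2 : ℕ)) j =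
        Fb t ((h : ℤ) * E j - 1 - (z (σ i) - (t / 2 : ℕ))) - Fb t' ((h' : ℤ) * E j - 1 - (z' (σ i) - (t' / 2 : ℕ))) := by
      unfold Rw
      ring
    show |Rw (fun j => (h : ℤ) * E j - 1) i t (z (σ i) - (t / 2 : ℕ)) j -
        Rw (fun j => (h' : ℤ) * E j - 1) i t' (z' (σ i) - (t' / 2 : ℕ)) j| ≤ e0 * 1
    rw [e4]
    linarith

end Pool.Agent.J4H55.KP
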