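import Mathlib
import Pool.Agent.J4H26.KP.Supr
import Pool.Agent.J4H39.KP.N4

set_option autoImplicit false

/-! Project KP, piece (R1): groups of coalescing walks in intervals far from each other stay apart. -/

namespace Pool.Agent.J4H55.KP

open Finset Filter Real
open Pool.Agent.J4H39.KP (nc cw_proj)
open Pool.Agent.J4H26.AF (moves)
open Pool.Agent.J4H26.KT (iw cw sw cw_succ mpos)
open Pool.Agent.J4H26.KP (SepG sepG sepI injI S_APART S_SEPR)

variable {K : ℕ}

/-- coalescing walks keep the weak order -/
theorem cw_order {f g : (Fin K → ℤ) → ℝ} (s : ℕ) : ∀ z : Fin K → ℤ,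
    (∀ u : Fin K → ℤ, (∀ i j, z i ≤ z j → u i ≤ u j) → f u ≤ g u) → cw f s z ≤ cw g s z := by
  induction s with
  | zero => intro z h; exact h z (fun i j hij => hij)
  | succ s ih =>
    intro z h
    rw [cw_succ, cw_succ]
    refine div_le_div_of_nonneg_right (sum_le_sum fun p hp => ih _ (fun u hu => h u (fun i j hij => ?_))) (mpos z).le
    apply hu
    unfold moves at hp
    rw [mem_filter] at hp
    rcases hij.lt_or_eq with h2 | h2
    · have h3 := (p i).isLt
      omega
    · rw [h2, hp.2 i j h2]

theorem t_SEPR : S_APART → S_SEPR := by
  classical
  intro hA r g hg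
  obtain ⟨c, hc, hev⟩ := hA (r + r) (g / 4) (by positivity)
  refine ⟨c, hc, ?_⟩
  have hlarge : ∀ᶠ k : ℕ in atTop, 8 ≤ g * √(k : ℝ) := by
    have h1 : Tendsto (fun k : ℕ => g * √(k : ℝ)) atTop atTop :=
      (tendsto_sqrt_atTop.comp tendsto_natCast_atTop_atTop).const_mul_atTop hg
    exact h1.eventually_ge_atTop 8
  filter_upwards [hev, hlarge] with k hk hk8
  intro K γ lo hi hgap hlh z hz
  -- the guards
  obtain ⟨a, ha⟩ : ∃ a : ℤ, a = ⌊g * √(k : ℝ) / 4⌋ := ⟨_, rfl⟩
  have ha1 : (a : ℝ) ≤ g * √(k : ℝ) / 4 := by rw [ha]; exact Int.floor_le _
  have ha2 : g * √(k : ℝ) / 8 ≤ a := by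
    have := Int.sub_one_lt_floor (g * √(k : ℝ) / 4)
    rw [← ha] at this
    linarith
  have ha0 : (0 : ℝ) < a := by linarith
  have ha0' : 0 < a := by exact_mod_cast ha0
  obtain ⟨w, hw⟩ : ∃ w : Fin (r + r) → ℤ, w = Fin.append (fun l => lo l - a) (fun l => hi l + a) := ⟨_, rfl⟩
  have hwl : ∀ l, w (Fin.castAdd r l) = lo l - a := by
    intro l
    rw [hw, Fin.append_left]
  have hwr : ∀ l, w (Fin.natAdd r l) = hi l + a := by
    intro l
    rw [hw, Fin.append_right]
  have hgap' : ∀ l l' : Fin r, l < l' → hi l + 2 * a ≤ lo l' := by
    intro l l' h
    have h1 := hgap l l' h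
    have h2 : ((hi l + 2 * a : ℤ) : ℝ) ≤ lo l' := by
      push_cast
      linarith
    exact_mod_cast h2
  have hlh' : ∀ l, (lo l : ℝ) ≤ hi l := fun l => by exact_mod_cast hlh l
  -- distances of the guards
  have hdist : ∀ i j : Fin (r + r), i ≠ j → g / 4 * √(k : ℝ) ≤ |(w i : ℝ) - w j| := by
    have key : ∀ x y : ℝ, g / 4 * √(k : ℝ) ≤ y - x → g / 4 * √(k : ℝ) ≤ |x - y| := by
      intro x y h
      rw [abs_sub_comm]
      exact h.trans (le_abs_self _)
    intro i j
    induction i using Fin.addCases with
    | left l =>
      induction j using Fin.addCases with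
      | left l' =>
        intro hne
        have hne' : l ≠ l' := fun h => hne (by rw [h])
        rw [hwl, hwl]
        rcases lt_or_gt_of_ne hne' with h | h
        · apply key
          have h1 := hgap l l' h
          have h2 := hlh' l
          push_cast
          linarith
        · rw [abs_sub_comm]
          apply key
          have h1 := hgap l' l h
          have h2 := hlh' l'
          push_cast
          linarith
      | right l' =>
        intro _
        rw [hwl, hwr]
        rcases lt_trichotomy l l' with h | h | h
        · apply key
          have h1 := hgap l l' h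
          have h2 := hlh' l
          have h3 := hlh' l'
          push_cast
          linarith
        · subst h
          apply key
          have h2 := hlh' l
          push_cast
          linarith
        · rw [abs_sub_comm]
          apply key
          have h1 := hgap l' l h
          push_cast
          linarith
    | right l =>
      induction j using Fin.addCases with
      | left l' =>
        intro _
        rw [hwl, hwr]
        rcases lt_trichotomy l l' with h | h | h
        · apply key
          have h1 := hgap l l' h
          push_cast
          linarith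
        · subst h
          rw [abs_sub_comm]
          apply key
          have h2 := hlh' l
          push_cast
          linarith
        · rw [abs_sub_comm]
          apply key
          have h1 := hgap l' l h
          have h2 := hlh' l
          have h3 := hlh' l'
          push_cast
          linarith
      | right l' =>
        intro hne
        have hne' : l ≠ l' := fun h => hne (by rw [h])
        rw [hwr, hwr]
        rcases lt_or_gt_of_ne hne' with h | h
        · apply key
          have h1 := hgap l l' h
          have h2 := hlh' l'
          push_cast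
          linarith
        · rw [abs_sub_comm]
          apply key
          have h1 := hgap l' l h
          have h2 := hlh' l
          push_cast
          linarith
  have h1 := hk w hdist
  -- all walks together
  obtain ⟨zz, hzz⟩ : ∃ zz : Fin (K + (r + r)) → ℤ, zz = Fin.append z w := ⟨_, rfl⟩
  have e1 : cw (fun u => (injI (m := r + r)) (fun l => u (Fin.natAdd K l))) k zz = cw (injI (m := r + r)) k w := by
    rw [cw_proj (Fin.natAdd K) (injI (m := r + r)) k zz]
    congr 1
    funext l
    rw [hzz, Fin.append_right]
  have e2 : cw (fun u => sepI γ (fun l => u (Fin.castAdd (r + r) l))) k zz = cw (sepI γ) k z := by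
    rw [cw_proj (Fin.castAdd (r + r)) (sepI γ) k zz]
    congr 1
    funext l
    rw [hzz, Fin.append_left]
  rw [← e1] at h1
  rw [← e2]
  refine h1.trans (cw_order k zz (fun u hu => ?_))
  unfold injI sepI
  by_cases hinj : Function.Injective (fun l : Fin (r + r) => u (Fin.natAdd K l))
  · rw [if_pos hinj, if_pos]
    have key : ∀ i j : Fin K, γ i < γ j → u (Fin.castAdd (r + r) i) < u (Fin.castAdd (r + r) j) := by
      intro i j hij
      have g1 : u (Fin.castAdd (r + r) i) ≤ u (Fin.natAdd K (Fin.natAdd r (γ i))) := by
        apply hu
        rw [hzz, Fin.append_left, Fin.append_right, hwr]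
        have := (hz i).2
        omega
      have g2 : u (Fin.natAdd K (Fin.castAdd r (γ j))) ≤ u (Fin.castAdd (r + r) j) := by
        apply hu
        rw [hzz, Fin.append_left, Fin.append_right, hwl]
        have := (hz j).1
        omega
      have g3 : u (Fin.natAdd K (Fin.natAdd r (γ i))) ≤ u (Fin.natAdd K (Fin.castAdd r (γ j))) := by
        apply hu
        rw [hzz, Fin.append_right, Fin.append_right, hwl, hwr]
        have := hgap' _ _ hij
        omega
      have g4 : u (Fin.natAdd K (Fin.natAdd r (γ i))) ≠ u (Fin.natAdd K (Fin.castAdd r (γ j))) := by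
        intro he
        have h5 := hinj he
        have h6 := congrArg Fin.val h5
        simp only [Fin.val_natAdd, Fin.val_castAdd] at h6
        have := (γ j).isLt
        omega
      omega
    intro i j hij
    rcases lt_or_gt_of_ne hij with h | h
    · exact (key i j h).ne
    · exact (key j i h).ne'
  · rw [if_neg hinj]
    split_ifs <;> norm_num

end Pool.Agent.J4H55.KP
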