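import Mathlib
import Pool.Agent.J4H39.KP.TL

set_option autoImplicit false

/-! Project KP, part TL, (T1): the events that the walks of disjoint pairs do not meet are negatively correlated. -/

namespace Pool.Agent.J4H55.KP

open Finset Filter Real
open Pool.Agent.J4H39 (U U_rec U_base U_zero U_nonneg U_le_one)
open Pool.Agent.J4H26.AF (moves flipc flipc_flipc flipc_mem)
open Pool.Agent.J4H26.KT (cw cw_succ cw_zero mpos)
open Pool.Agent.J4H39.KP (S_NA)

variable {K : ℕ}

theorem sum_flip (z : Fin K → ℤ) (i : Fin K) (f : (Fin K → Fin 2) → ℝ) :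
    ∑ e ∈ moves z, f (flipc z i e) = ∑ e ∈ moves z, f e := by
  apply sum_bij' (fun e _ => flipc z i e) (fun e _ => flipc z i e)
  · intro e he; exact flipc_mem i he
  · intro e he; exact flipc_mem i he
  · intro e _; exact flipc_flipc z i e
  · intro e _; exact flipc_flipc z i e
  · intro e _; rfl

theorem fin2_cases (a : Fin 2) : ((a : ℕ) = 0 ∧ ((1 - a : Fin 2) : ℕ) = 1) ∨ ((a : ℕ) = 1 ∧ ((1 - a : Fin 2) : ℕ) = 0) := by
  revert a; decide

/-- one step of the correlation inequality -/
theorem step {z : Fin K → ℤ} {i j : Fin K} (hij : z i ≠ z j) (P : (Fin K → Fin 2) → ℝ) (h : ℕ → ℕ → ℝ)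
    (hP1 : ∀ e ∈ moves z, P (flipc z j e) = P e)
    (hP2 : ∀ e ∈ moves z, (e i : ℕ) = 0 → P (flipc z i e) ≤ P e) (hh : h 0 0 + h 0 1 ≤ h 1 0 + h 1 1) :
    ∑ e ∈ moves z, P e * h (e i) (e j) ≤ (h 0 0 + h 0 1 + h 1 0 + h 1 1) / 4 * ∑ e ∈ moves z, P e := by
  have e1 : ∑ e ∈ moves z, P e * h (e i) (e j) = ∑ e ∈ moves z, P e * h (e i) ((1 - e j : Fin 2) : ℕ) := by
    rw [← sum_flip z j (fun e => P e * h (e i) (e j))]
    refine sum_congr rfl fun e he => ?_
    have g1 : flipc z j e i = e i := by unfold flipc; rw [if_neg hij]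
    have g2 : flipc z j e j = 1 - e j := by unfold flipc; rw [if_pos rfl]
    rw [hP1 e he, g1, g2]
  have e2 : 2 * ∑ e ∈ moves z, P e * h (e i) (e j) = ∑ e ∈ moves z, P e * (h (e i) 0 + h (e i) 1) := by
    rw [two_mul]
    nth_rewrite 2 [e1]
    rw [← sum_add_distrib]
    refine sum_congr rfl fun e _ => ?_
    rcases fin2_cases (e j) with ⟨h1, h2⟩ | ⟨h1, h2⟩
    · rw [h1, h2]; ring
    · rw [h1, h2]; ring
  have e3 : ∑ e ∈ moves z, P e * (h (e i) 0 + h (e i) 1) =
      ∑ e ∈ moves z, P (flipc z i e) * (h ((1 - e i : Fin 2) : ℕ) 0 + h ((1 - e i : Fin 2) : ℕ) 1) := by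
    rw [← sum_flip z i (fun e => P e * (h (e i) 0 + h (e i) 1))]
    refine sum_congr rfl fun e _ => ?_
    have g2 : flipc z i e i = 1 - e i := by unfold flipc; rw [if_pos rfl]
    rw [g2]
  have e4 : 2 * ∑ e ∈ moves z, P e * (h (e i) 0 + h (e i) 1) ≤
      ∑ e ∈ moves z, (P e + P (flipc z i e)) * ((h 0 0 + h 0 1 + h 1 0 + h 1 1) / 2) := by
    rw [two_mul]
    nth_rewrite 2 [e3]
    rw [← sum_add_distrib]
    refine sum_le_sum fun e he => ?_
    rcases fin2_cases (e i) with ⟨h1, h2⟩ | ⟨h1, h2⟩
    · have h3 := hP2 e he h1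
      rw [h1, h2]
      nlinarith
    · have h3 := hP2 (flipc z i e) (flipc_mem i he) (by
        have g2 : flipc z i e i = 1 - e i := by unfold flipc; rw [if_pos rfl]
        rw [g2]; exact h2)
      rw [flipc_flipc] at h3
      rw [h1, h2]
      nlinarith
  have e5 : ∑ e ∈ moves z, (P e + P (flipc z i e)) * ((h 0 0 + h 0 1 + h 1 0 + h 1 1) / 2) =
      (h 0 0 + h 0 1 + h 1 0 + h 1 1) * ∑ e ∈ moves z, P e := by
    rw [← sum_mul, sum_add_distrib, sum_flip z i P]
    ring
  linarith

theorem U_mono_int (q : ℕ) (d : ℤ) (hd : 0 ≤ d) : U q (2 * d) ≤ U q (2 * (d + 1)) := by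
  obtain ⟨n, rfl⟩ := Int.eq_ofNat_of_zero_le hd
  have h1 := Pool.Agent.J4H39.U_mono_nat q (2 * n)
  have h2 := Pool.Agent.J4H39.U_mono_nat q (2 * n + 1)
  push_cast at h1 h2
  rw [show (2 : ℤ) * ((n : ℤ) + 1) = 2 * (n : ℤ) + 1 + 1 by ring]
  exact h1.trans h2

theorem U_two (s : ℕ) {d : ℤ} (hd : d ≠ 0) :
    U (2 * (s + 1)) (2 * d) = (U (2 * s) (2 * (d + 1)) + 2 * U (2 * s) (2 * d) + U (2 * s) (2 * (d - 1))) / 4 := by
  rw [show 2 * (s + 1) = 2 * s + 1 + 1 by ring, U_rec (2 * s + 1) (show 2 * d ≠ 0 by omega),
    U_rec (2 * s) (show 2 * d + 1 ≠ 0 by omega), U_rec (2 * s) (show 2 * d - 1 ≠ 0 by omega),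
    show 2 * d + 1 - 1 = 2 * d by ring, show 2 * d - 1 + 1 = 2 * d by ring, show 2 * d + 1 + 1 = 2 * (d + 1) by ring,
    show 2 * d - 1 - 1 = 2 * (d - 1) by ring]
  ring

theorem t_NA : S_NA := by
  classical
  intro K m k x hx0 hx1 p q
  have hGn : ∀ (s : ℕ) (d : ℤ), 0 ≤ 1 - (1 - x) * U (2 * s) (2 * d) := by
    intro s d
    have h1 := U_nonneg (2 * s) (2 * d)
    have h2 := U_le_one (2 * s) (2 * d)
    nlinarith
  have hGm : ∀ (s : ℕ) (d : ℤ), 0 ≤ d → 1 - (1 - x) * U (2 * s) (2 * (d + 1)) ≤ 1 - (1 - x) * U (2 * s) (2 * d) := by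
    intro s d hd
    have h1 := U_mono_int (2 * s) d hd
    nlinarith
  induction k with
  | zero =>
    intro z hz hord
    rw [cw_zero]
    refine (prod_congr rfl fun j _ => ?_).le
    by_cases h : z (p j) = z (q j)
    · rw [if_pos h, h, sub_self, mul_zero, mul_zero, U_zero]
      ring
    · rw [if_neg h, mul_zero, U_base (by omega)]
      ring
  | succ k ih =>
    intro z hz hord
    have hmo : ∀ e ∈ moves z, ∀ a b : Fin K, z a ≤ z b → z a + ((e a : ℕ) : ℤ) ≤ z b + ((e b : ℕ) : ℤ) := by
      intro e he a b hab
      unfold moves at he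
      rw [mem_filter] at he
      rcases hab.lt_or_eq with h2 | h2
      · have h3 := (e a).isLt
        omega
      · rw [h2, he.2 a b h2]
    obtain ⟨φ, hφ⟩ : ∃ φ : Fin m → ℕ → ℕ → ℝ, φ = fun (j : Fin m) (a b : ℕ) =>
        1 - (1 - x) * U (2 * k) (2 * (z (q j) + (b : ℤ) - (z (p j) + (a : ℤ)))) := ⟨_, rfl⟩
    have hφ0 : ∀ j a b, 0 ≤ φ j a b := by
      intro j a b
      rw [hφ]
      exact hGn _ _
    obtain ⟨G, hG⟩ : ∃ G : Fin m → ℝ, G = fun j => 1 - (1 - x) * U (2 * (k + 1)) (2 * (z (q j) - z (p j))) := ⟨_, rfl⟩
    have hG0 : ∀ j, 0 ≤ G j := by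
      intro j
      rw [hG]
      exact hGn _ _
    have h1 : ∑ e ∈ moves z, cw (fun u => ∏ j, if u (p j) = u (q j) then (1 : ℝ) else x) k
        (fun i => z i + ((e i : ℕ) : ℤ)) ≤ ∑ e ∈ moves z, ∏ j, φ j (e (p j)) (e (q j)) := by
      refine sum_le_sum fun e he => ?_
      have h2 := ih (fun i => z i + ((e i : ℕ) : ℤ)) (fun j => hmo e he _ _ (hz j)) (fun i j hij => hmo e he _ _ (hord i j hij))
      rw [hφ]
      exact h2
    have h2 : ∀ n : ℕ, n ≤ m → ∑ e ∈ moves z, ∏ j ∈ univ.filter (fun j : Fin m => (j : ℕ) < n), φ j (e (p j)) (e (q j)) ≤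
        (∏ j ∈ univ.filter (fun j : Fin m => (j : ℕ) < n), G j) * #(moves z) := by
      intro n
      induction n with
      | zero =>
        intro _
        simp
      | succ n ihn =>
        intro hn
        have ihn' := ihn (by omega)
        obtain ⟨l, hl⟩ : ∃ l : Fin m, l = ⟨n, by omega⟩ := ⟨_, rfl⟩
        have hln : (l : ℕ) = n := by rw [hl]
        have hS : univ.filter (fun j : Fin m => (j : ℕ) < n + 1) = insert l (univ.filter (fun j : Fin m => (j : ℕ) < n)) := by
          ext j
          rw [mem_insert, mem_filter, mem_filter]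
          constructor
          · rintro ⟨_, h⟩
            by_cases hj : (j : ℕ) < n
            · exact Or.inr ⟨mem_univ _, hj⟩
            · exact Or.inl (Fin.ext (by omega))
          · rintro (rfl | ⟨_, h⟩)
            · exact ⟨mem_univ _, by omega⟩
            · exact ⟨mem_univ _, by omega⟩
        have hnot : l ∉ univ.filter (fun j : Fin m => (j : ℕ) < n) := by
          rw [mem_filter]
          rintro ⟨_, h⟩
          omega
        rw [hS, prod_insert hnot]
        obtain ⟨P, hP⟩ : ∃ P : (Fin K → Fin 2) → ℝ, P = fun e =>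
          ∏ j ∈ univ.filter (fun j : Fin m => (j : ℕ) < n), φ j (e (p j)) (e (q j)) := ⟨_, rfl⟩
        have hsum : ∑ e ∈ moves z, ∏ j ∈ insert l (univ.filter (fun j : Fin m => (j : ℕ) < n)), φ j (e (p j)) (e (q j)) =
            ∑ e ∈ moves z, P e * φ l (e (p l)) (e (q l)) := by
          refine sum_congr rfl fun e _ => ?_
          rw [prod_insert hnot, hP, mul_comm]
        have hsum' : ∑ e ∈ moves z, ∏ j ∈ univ.filter (fun j : Fin m => (j : ℕ) < n), φ j (e (p j)) (e (q j)) =
            ∑ e ∈ moves z, P e := by
          rw [hP]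
        rw [hsum]
        rw [hsum'] at ihn'
        have hkey : ∑ e ∈ moves z, P e * φ l (e (p l)) (e (q l)) ≤ G l * ∑ e ∈ moves z, P e := by
          by_cases hd : z (p l) = z (q l)
          · refine le_of_eq ?_
            rw [mul_sum]
            refine sum_congr rfl fun e he => ?_
            unfold moves at he
            rw [mem_filter] at he
            have g1 := he.2 _ _ hd
            rw [hφ, hG]
            simp only
            rw [g1, hd, sub_self, sub_self, mul_zero, U_zero, U_zero]
            ring
          · have hlt : z (p l) < z (q l) := lt_of_le_of_ne (hz l) hd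
            have hG' : G l = (φ l 0 0 + φ l 0 1 + φ l 1 0 + φ l 1 1) / 4 := by
              rw [hG, hφ]
              simp only
              rw [U_two k (show z (q l) - z (p l) ≠ 0 by omega)]
              push_cast
              rw [show z (q l) + 0 - (z (p l) + 0) = z (q l) - z (p l) by ring,
                show z (q l) + 1 - (z (p l) + 0) = z (q l) - z (p l) + 1 by ring,
                show z (q l) + 0 - (z (p l) + 1) = z (q l) - z (p l) - 1 by ring,
                show z (q l) + 1 - (z (p l) + 1) = z (q l) - z (p l) by ring]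
              ring
            rw [hG']
            refine step hd P (φ l) ?_ ?_ ?_
            · intro e he
              rw [hP]
              refine prod_congr rfl fun j hj => ?_
              rw [mem_filter] at hj
              have g1 := hord j l (by rw [Fin.lt_def]; omega)
              have g2 := hz j
              have g3 : flipc z (q l) e (p j) = e (p j) := by
                unfold flipc
                rw [if_neg (by omega)]
              have g4 : flipc z (q l) e (q j) = e (q j) := by
                unfold flipc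
                rw [if_neg (by omega)]
              rw [g3, g4]
            · intro e he h0
              rw [hP]
              refine prod_le_prod (fun j _ => hφ0 _ _ _) (fun j hj => ?_)
              rw [mem_filter] at hj
              have g1 := hord j l (by rw [Fin.lt_def]; omega)
              have g2 := hz j
              have he' := he
              unfold moves at he'
              rw [mem_filter] at he'
              by_cases c1 : z (q j) = z (p l)
              · have g4 : flipc z (p l) e (q j) = 1 - e (q j) := by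
                  unfold flipc
                  rw [if_pos c1]
                have g5 : e (q j) = e (p l) := he'.2 _ _ c1
                have g6 : ((e (q j) : Fin 2) : ℕ) = 0 := by rw [g5]; exact h0
                have g7 : ((1 - e (q j) : Fin 2) : ℕ) = 1 := by
                  rcases fin2_cases (e (q j)) with ⟨a1, a2⟩ | ⟨a1, a2⟩
                  · exact a2
                  · omega
                rw [g4, g7, g6]
                by_cases c2 : z (p j) = z (p l)
                · have g8 : flipc z (p l) e (p j) = 1 - e (p j) := by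
                    unfold flipc
                    rw [if_pos c2]
                  have g9 : e (p j) = e (q j) := he'.2 _ _ (by rw [c1, c2])
                  have g10 : ((e (p j) : Fin 2) : ℕ) = 0 := by rw [g9]; exact g6
                  rw [g8, g9, g7, g6, hφ]
                  simp only
                  rw [c1, c2]
                  push_cast
                  rw [sub_self, add_zero, sub_self]
                · have g8 : flipc z (p l) e (p j) = e (p j) := by
                    unfold flipc
                    rw [if_neg c2]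
                  rw [g8, hφ]
                  simp only
                  have g9 := (e (p j)).isLt
                  have g10 := hGm k (z (q j) + ((0 : ℕ) : ℤ) - (z (p j) + ((e (p j) : ℕ) : ℤ))) (by omega)
                  rw [show z (q j) + ((0 : ℕ) : ℤ) - (z (p j) + ((e (p j) : ℕ) : ℤ)) + 1 =
                    z (q j) + ((1 : ℕ) : ℤ) - (z (p j) + ((e (p j) : ℕ) : ℤ)) by push_cast; ring] at g10
                  exact g10
              · have g3 : flipc z (p l) e (p j) = e (p j) := by
                  unfold flipc
                  rw [if_neg (by omega)]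
                have g4 : flipc z (p l) e (q j) = e (q j) := by
                  unfold flipc
                  rw [if_neg c1]
                rw [g3, g4]
            · rw [hφ]
              simp only
              push_cast
              rw [show z (q l) + 0 - (z (p l) + 0) = z (q l) - z (p l) by ring,
                show z (q l) + 1 - (z (p l) + 0) = z (q l) - z (p l) + 1 by ring,
                show z (q l) + 0 - (z (p l) + 1) = z (q l) - z (p l) - 1 by ring,
                show z (q l) + 1 - (z (p l) + 1) = z (q l) - z (p l) by ring]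
              have g1 := hGm k (z (q l) - z (p l)) (by omega)
              have g2 := hGm k (z (q l) - z (p l) - 1) (by omega)
              rw [show z (q l) - z (p l) - 1 + 1 = z (q l) - z (p l) by ring] at g2
              linarith
        refine hkey.trans ?_
        rw [mul_assoc]
        exact mul_le_mul_of_nonneg_left ihn' (hG0 l)
    have h3 := h2 m le_rfl
    have h4 : univ.filter (fun j : Fin m => (j : ℕ) < m) = univ := by
      ext j
      simp
    rw [h4] at h3
    rw [cw_succ, div_le_iff₀ (mpos z)]
    refine (h1.trans h3).trans (le_of_eq ?_)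
    rw [hG]

end Pool.Agent.J4H55.KP
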